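import Pool.Agent.W92.DP.Defs
import Pool.Agent.H443R3.BT.Conv
import Pool.Agent.H974R2.Plan4
import Pool.Agent.H974R2.Circ

/-!
Double visit (task DP-DET of the project MP_fe58d8_pr DoublePoints).
-/

namespace Pool.Agent.W801.DPdet

open H974 H12S Finset H389NS H984P H984N H342P
open Pool.Agent.W92.DP

/-- The translated edge. -/
def sh (v : Vtx) (e : Edg) : Edg := (e.1 + v.1, e.2.1 + v.2, e.2.2)

theorem src_sh (v : Vtx) (e : Edg) : src (sh v e) = ((src e).1 + v.1, (src e).2 + v.2) := rfl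

theorem tgt_sh (v : Vtx) (e : Edg) : tgt (sh v e) = ((tgt e).1 + v.1, (tgt e).2 + v.2) := by
  obtain ⟨x, y, _ | _⟩ := e
  · simp only [sh, tgt_false, Prod.mk.injEq, true_and]; ring
  · simp only [sh, tgt_true, Prod.mk.injEq, and_true]; ring

theorem dsrc_sh (v : Vtx) (e : Edg) : dsrc (sh v e) = ((dsrc e).1 + v.1, (dsrc e).2 + v.2) := by
  obtain ⟨x, y, _ | _⟩ := e
  · simp only [sh, dsrc_false, Prod.mk.injEq, and_true]; ring
  · simp only [sh, dsrc_true, Prod.mk.injEq, true_and]; ring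

theorem dtgt_sh (v : Vtx) (e : Edg) : dtgt (sh v e) = ((dtgt e).1 + v.1, (dtgt e).2 + v.2) := rfl

theorem reach_sh {G G' : Set Edg} {v : Vtx} (h : ∀ e ∈ G, sh v e ∈ G') {a w : Vtx}
    (hr : Reach G a w) : Reach G' (a.1 + v.1, a.2 + v.2) (w.1 + v.1, w.2 + v.2) := by
  induction hr with
  | refl => exact Reach.refl _ _
  | tail _ hs ih =>
    obtain ⟨e, he, hor⟩ := hs
    refine ih.trans (Adj.reach ⟨sh v e, h e he, ?_⟩)
    rw [src_sh, tgt_sh]
    rcases hor with ⟨h1, h2⟩ | ⟨h1, h2⟩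
    · left; rw [h1, h2]; exact ⟨rfl, rfl⟩
    · right; rw [h1, h2]; exact ⟨rfl, rfl⟩

theorem dreach_sh {G G' : Set Edg} {v : Vtx} (h : ∀ e ∈ G, sh v e ∈ G') {a w : Vtx}
    (hr : DReach G a w) : DReach G' (a.1 + v.1, a.2 + v.2) (w.1 + v.1, w.2 + v.2) := by
  induction hr with
  | refl => exact DReach.refl _ _
  | tail _ hs ih =>
    obtain ⟨e, he, hor⟩ := hs
    refine ih.trans (DAdj.reach ⟨sh v e, h e he, ?_⟩)
    rw [dsrc_sh, dtgt_sh]
    rcases hor with ⟨h1, h2⟩ | ⟨h1, h2⟩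
    · left; rw [h1, h2]; exact ⟨rfl, rfl⟩
    · right; rw [h1, h2]; exact ⟨rfl, rfl⟩

/-- A dual horizontal and a dual vertical path meet. -/
theorem dcross_meet {G : Set Edg} {A B C D a b c d : ℤ} (hA : A ≤ a) (hab : a < b) (hB : b ≤ B)
    (hC : C ≤ c) (hcd : c < d) (hD : d ≤ D) {u v u' v' : Vtx} {G1 G2 : Set Edg}
    (h1 : DReach G1 u v) (hG1 : G1 ⊆ G) (hR1 : ∀ e ∈ G1, dl e ∈ RE A B c d)
    (hu : u.1 ≤ a) (hv : b ≤ v.1)
    (h2 : DReach G2 u' v') (hG2 : G2 ⊆ G) (hR2 : ∀ e ∈ G2, dl e ∈ RE a b C D)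
    (hu' : u'.2 ≤ c) (hv' : d ≤ v'.2) :
    DReach G u u' := by
  have s1 : Reach (dl '' G ∩ ↑(RE A B c d)) u v := by
    refine (reach_dl.mpr h1).mono ?_
    rintro _ ⟨e, he, rfl⟩
    exact ⟨⟨e, hG1 he, rfl⟩, Finset.mem_coe.mpr (hR1 e he)⟩
  have s2 : Reach (dl '' G ∩ ↑(RE a b C D)) u' v' := by
    refine (reach_dl.mpr h2).mono ?_
    rintro _ ⟨e, he, rfl⟩
    exact ⟨⟨e, hG2 he, rfl⟩, Finset.mem_coe.mpr (hR2 e he)⟩
  have m := cross_meet hA hab hB hC hcd hD s1 hu hv s2 hu' hv'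
  exact reach_dl.mp (m.mono Set.inter_subset_left)

theorem src_e (v : Vtx) (β : Bool) : src ((v.1, v.2, β) : Edg) = v := rfl
theorem dtgt_e (v : Vtx) (β : Bool) : dtgt ((v.1, v.2, β) : Edg) = v := rfl

/-- The arms of `E4`, translated. -/
theorem arms_tr (hA : St_arms) {L m : ℕ} (h2 : 2 ≤ L) (h64 : 64 ≤ m) {v : Vtx} {F : Finset Edg}
    (hE : E4 L m v F) {U : ℤ} (hU : U = (L * m : ℕ)) : ∃ β : Bool, ((v.1, v.2, β) : Edg) ∈ F ∧
    (∃ a a' : Vtx, ((a = v ∧ a' = tgt (v.1, v.2, β)) ∨ (a = tgt (v.1, v.2, β) ∧ a' = v)) ∧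
      (∃ w : Vtx, w.2 = v.2 - 16 * U ∧
        Reach ((↑F ∩ ↑(RE (v.1 - 4 * U) (v.1 + 4 * U) (v.2 - 16 * U) (v.2 + 16 * U))) \
          {((v.1, v.2, β) : Edg)}) a w) ∧
      (∃ w : Vtx, w.2 = v.2 + 16 * U ∧
        Reach ((↑F ∩ ↑(RE (v.1 - 4 * U) (v.1 + 4 * U) (v.2 - 16 * U) (v.2 + 16 * U))) \
          {((v.1, v.2, β) : Edg)}) a' w)) ∧
    (∃ f f' : Vtx, ((f = dsrc (v.1, v.2, β) ∧ f' = v) ∨ (f = v ∧ f' = dsrc (v.1, v.2, β))) ∧
      (∃ g : Vtx, g.1 = v.1 - 16 * U - 1 ∧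
        DReach (↑(RE (v.1 - 16 * U) (v.1 + 16 * U) (v.2 - 4 * U) (v.2 + 4 * U)) \ ↑F) f g) ∧
      (∃ g : Vtx, g.1 = v.1 + 16 * U ∧
        DReach (↑(RE (v.1 - 16 * U) (v.1 + 16 * U) (v.2 - 4 * U) (v.2 + 4 * U)) \ ↑F) f' g)) := by
  obtain ⟨β, hP, hF⟩ := hE
  refine ⟨β, hF, ?_⟩
  obtain ⟨⟨a, a', hor, ⟨w, hw, hr⟩, ⟨w', hw', hr'⟩⟩, ⟨f, f', hfor, ⟨g, hg, hd⟩, ⟨g', hg', hd'⟩⟩, -⟩ :=
    hA L m h2 h64 β _ hP
  have hU2 : (m : ℤ) ≤ U := by
    rw [hU]; push_cast; nlinarith [show (2:ℤ) ≤ L by exact_mod_cast h2, show (0:ℤ) ≤ m by positivity]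
  have hm0 : (0:ℤ) ≤ m := by positivity
  have e4 : ((4 * L * m : ℕ) : ℤ) = 4 * U := by rw [hU]; push_cast; ring
  have e16 : ((16 * L * m : ℕ) : ℤ) = 16 * U := by rw [hU]; push_cast; ring
  have hsub : ∀ e ∈ ((shc v ↑F) ∩ ↑(XV (4 * L * m) m (16 * L * m))) \ {e0 β}, sh v e ∈
      ((↑F : Set Edg) ∩ ↑(RE (v.1 - 4 * U) (v.1 + 4 * U) (v.2 - 16 * U) (v.2 + 16 * U))) \
          {((v.1, v.2, β) : Edg)} := by
    rintro ⟨x, y, b⟩ ⟨⟨h3, h4⟩, h5⟩
    refine ⟨⟨h3, ?_⟩, ?_⟩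
    · unfold XV boxE at h4
      rw [Finset.mem_coe, Finset.mem_union] at h4
      rw [Finset.mem_coe]
      cases b
      · rw [mem_RE_false, mem_RE_false, e4, e16] at h4
        simp only [sh]
        rw [mem_RE_false]
        omega
      · rw [mem_RE_true, mem_RE_true, e4, e16] at h4
        simp only [sh]
        rw [mem_RE_true]
        omega
    · intro h6
      apply h5
      simp only [sh, Set.mem_singleton_iff, Prod.mk.injEq] at h6
      simp only [e0, Set.mem_singleton_iff, Prod.mk.injEq]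
      exact ⟨by omega, by omega, h6.2.2⟩
  have hsubd : ∀ e ∈ ((↑(XH (4 * L * m) m (16 * L * m)) : Set Edg) \ shc v ↑F) \ {e0 β}, sh v e ∈
      ((↑(RE (v.1 - 16 * U) (v.1 + 16 * U) (v.2 - 4 * U) (v.2 + 4 * U)) : Set Edg) \ ↑F) := by
    rintro ⟨x, y, b⟩ ⟨⟨h3, h4⟩, h5⟩
    refine ⟨?_, h4⟩
    unfold XH boxE at h3
    rw [Finset.mem_coe, Finset.mem_union] at h3
    rw [Finset.mem_coe]
    cases b
    · rw [mem_RE_false, mem_RE_false, e4, e16] at h3
      simp only [sh]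
      rw [mem_RE_false]
      omega
    · rw [mem_RE_true, mem_RE_true, e4, e16] at h3
      simp only [sh]
      rw [mem_RE_true]
      omega
  rw [e16] at hw hw' hg hg'
  refine ⟨⟨(a.1 + v.1, a.2 + v.2), (a'.1 + v.1, a'.2 + v.2), ?_,
    ⟨_, ?_, reach_sh hsub hr⟩, ⟨_, ?_, reach_sh hsub hr'⟩⟩,
    ⟨(f.1 + v.1, f.2 + v.2), (f'.1 + v.1, f'.2 + v.2), ?_,
    ⟨_, ?_, dreach_sh hsubd hd⟩, ⟨_, ?_, dreach_sh hsubd hd'⟩⟩⟩
  · obtain ⟨v1, v2⟩ := v
    rcases hor with ⟨rfl, rfl⟩ | ⟨rfl, rfl⟩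
    · left
      cases β <;> simp [e0] <;> ring_nf
    · right
      cases β <;> simp [e0] <;> ring_nf
  · simp only; omega
  · simp only; omega
  · obtain ⟨v1, v2⟩ := v
    rcases hfor with ⟨rfl, rfl⟩ | ⟨rfl, rfl⟩
    · left
      cases β <;> simp [e0] <;> ring_nf
    · right
      cases β <;> simp [e0] <;> ring_nf
  · simp only; omega
  · simp only; omega

theorem mem_core4 {U : ℤ} {v : Vtx} : v ∈ core4 U ↔
    (-(10 * U) ≤ v.1 ∧ v.1 ≤ -(8 * U)) ∧ (17 * U ≤ v.2 ∧ v.2 ≤ 19 * U) := by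
  unfold core4
  rw [Finset.mem_product, Finset.mem_Icc, Finset.mem_Icc]

/-- The bottom arm and the open crossings lead to the wired arc. -/
theorem open_part {D : Dm} {F : Finset Edg} {U : ℤ} (hU : 128 ≤ U)
    (hl : D.l < -(27 * U)) (hG : GO U F) {v : Vtx} (hv : v ∈ core4 U) {e : Edg} {a w : Vtx}
    (hw : w.2 = v.2 - 16 * U) (ha : v.2 ≤ a.2)
    (hr : Reach ((↑F ∩ ↑(RE (v.1 - 4 * U) (v.1 + 4 * U) (v.2 - 16 * U) (v.2 + 16 * U))) \ {e})
      a w) : a ∈ D.clu F := by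
  rw [mem_core4] at hv
  obtain ⟨⟨v1, v2⟩, v3, v4⟩ := hv
  obtain ⟨⟨y, y', hy, hy', h1⟩, ⟨x, x', hx, hx', h2⟩⟩ := hG
  have h1' : Reach (↑F ∩ ↑(RE (-(17 * U)) (-U) (4 * U) (12 * U))) (-(17 * U), y) (-U, y') :=
    h1.mono (Set.inter_subset_inter_right (↑F) (by exact_mod_cast LRE_subset_RE))
  have h2' : Reach (↑F ∩ ↑(RE (-(17 * U)) (-U) 0 (12 * U))) (x, 0) (x', 12 * U) :=
    h2.mono (Set.inter_subset_inter_right (↑F) (by exact_mod_cast TBE_subset_RE))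
  have hr' : Reach (↑F ∩ ↑(RE (v.1 - 4 * U) (v.1 + 4 * U) (v.2 - 16 * U) (v.2 + 16 * U))) w a :=
    (hr.mono Set.sdiff_subset).symm
  have m1 := cross_meet (F := (↑F : Set Edg)) (A := -(17 * U)) (B := -U) (C := v.2 - 16 * U)
      (D := v.2 + 16 * U) (a := v.1 - 4 * U) (b := v.1 + 4 * U) (c := 4 * U) (d := 12 * U)
      (by omega) (by omega) (by omega) (by omega) (by omega) (by omega) h1'
      (by simp only; omega) (by simp only; omega) hr' (by omega) (by omega)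
  have m2 := cross_meet (F := (↑F : Set Edg)) (A := -(17 * U)) (B := -U) (C := 0)
      (D := 12 * U) (a := -(17 * U)) (b := -U) (c := 4 * U) (d := 12 * U)
      (by omega) (by omega) (by omega) (by omega) (by omega) (by omega) h1'
      (by simp only; omega) (by simp only; omega) h2' (by simp only; omega) (by simp only; omega)
  have m3 := clu_bottom (D := D) F (-x).toNat (by omega)
  have e3 : (-(((-x).toNat : ℕ) : ℤ)) = x := by omega
  rw [e3] at m3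
  have sF : (↑F : Set Edg) ⊆ D.cfg F := Set.subset_union_left
  have n1 : Reach (D.cfg F) (x, 0) (-(17 * U), y) := (m2.symm).mono (Set.inter_subset_left.trans sF)
  have n2 : Reach (D.cfg F) (-(17 * U), y) w := m1.mono (Set.inter_subset_left.trans sF)
  have n3 : Reach (D.cfg F) w a := hr'.mono (Set.inter_subset_left.trans sF)
  exact ((m3.trans n1).trans n2).trans n3

/-- Edges of the rectangle away from the wired arc. -/
theorem free_edge {D : Dm} (hD : D.Ok) {a b c d : ℤ} (ha : D.l < a) (hb : b ≤ D.r) (hc : 0 ≤ c)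
    (hd : d < D.h) (hac : 0 < c ∨ 0 < a) {e : Edg} (he : e ∈ RE a b c d) :
    e ∈ D.edges ∧ e ∉ D.wir := by
  obtain ⟨x, y, _ | _⟩ := e
  · rw [mem_RE_false] at he
    unfold Dm.edges Dm.wir
    rw [mem_RE_false]
    refine ⟨by omega, ?_⟩
    simp only [Set.mem_ofPred_eq, Bool.false_eq_true, false_and, false_or, or_false, true_and]
    omega
  · rw [mem_RE_true] at he
    unfold Dm.edges Dm.wir
    rw [mem_RE_true]
    refine ⟨by omega, ?_⟩
    simp only [Set.mem_ofPred_eq, Bool.true_eq_false, false_and, false_or, true_and]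
    omega

theorem free_sub {D : Dm} (hD : D.Ok) {F : Finset Edg} {a b c d : ℤ} (ha : D.l < a)
    (hb : b ≤ D.r) (hc : 0 ≤ c) (hd : d < D.h) (hac : 0 < c ∨ 0 < a) {G : Set Edg}
    (hG : G ⊆ ↑(RE a b c d) \ ↑F) : G ⊆ (↑D.edges \ D.cfg F : Set Edg) := by
  intro e he
  obtain ⟨h1, h2⟩ := hG he
  obtain ⟨h3, h4⟩ := free_edge hD ha hb hc hd hac (Finset.mem_coe.mp h1)
  exact ⟨Finset.mem_coe.mpr h3, fun h => h.elim h2 h4⟩

theorem dl_RE {a b c d : ℤ} {e : Edg} (he : e ∈ RE a b c d) : dl e ∈ RE (a - 1) b (c - 1) d := by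
  obtain ⟨x, y, _ | _⟩ := e
  · rw [dl_f, mem_RE_true]
    rw [mem_RE_false] at he
    omega
  · rw [dl_t, mem_RE_false]
    rw [mem_RE_true] at he
    omega

theorem dl_LRE {a b c d : ℤ} {e : Edg} (he : e ∈ LRE a b c d) :
    dl e ∈ RE a (b - 1) (c - 1) d := by
  obtain ⟨x, y, _ | _⟩ := e
  · rw [dl_f, mem_RE_true]
    rw [mem_LRE_false] at he
    omega
  · rw [dl_t, mem_RE_false]
    rw [mem_LRE_true] at he
    omega

theorem dl_TBE {a b c d : ℤ} {e : Edg} (he : e ∈ TBE a b c d) :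
    dl e ∈ RE (a - 1) b c (d - 1) := by
  obtain ⟨x, y, _ | _⟩ := e
  · rw [dl_f, mem_RE_true]
    rw [mem_TBE_false] at he
    omega
  · rw [dl_t, mem_RE_false]
    rw [mem_TBE_true] at he
    omega

/-- The dual arms and the dual crossings lead to the complementary arc. -/
theorem dual_part {D : Dm} (hD : D.Ok) {F : Finset Edg} {U : ℤ} (hU : 128 ≤ U)
    (hl : D.l < -(27 * U)) (hr : 27 * U < D.r) (hh : 39 * U < D.h) (hG : GD U F) {v : Vtx}
    (hv : v ∈ core4 U) {f f' g g' : Vtx} (hf : v.1 - 1 ≤ f.1) (hf' : f'.1 ≤ v.1)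
    (hg : g.1 = v.1 - 16 * U - 1)
    (hfg : DReach (↑(RE (v.1 - 16 * U) (v.1 + 16 * U) (v.2 - 4 * U) (v.2 + 4 * U)) \ ↑F) f g)
    (hg' : g'.1 = v.1 + 16 * U)
    (hfg' : DReach (↑(RE (v.1 - 16 * U) (v.1 + 16 * U) (v.2 - 4 * U) (v.2 + 4 * U)) \ ↑F) f' g') :
    f ∈ D.dclu F ∧ f' ∈ D.dclu F := by
  rw [mem_core4] at hv
  obtain ⟨⟨v1, v2⟩, v3, v4⟩ := hv
  obtain ⟨⟨⟨x, x', hx, hx', hR⟩, ⟨y, y', hy, hy', hT⟩⟩, ⟨z, z', hz, hz', hL⟩⟩ := hG
  have sA : ((↑(RE (v.1 - 16 * U) (v.1 + 16 * U) (v.2 - 4 * U) (v.2 + 4 * U)) \ ↑F : Set Edg)) ⊆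
      (↑D.edges \ D.cfg F : Set Edg) :=
    free_sub hD (by omega) (by omega) (by omega) (by omega) (by omega) subset_rfl
  have rA : ∀ e ∈ ((↑(RE (v.1 - 16 * U) (v.1 + 16 * U) (v.2 - 4 * U) (v.2 + 4 * U)) \ ↑F :
      Set Edg)), dl e ∈ RE (v.1 - 16 * U - 1) (v.1 + 16 * U) (v.2 - 4 * U - 1) (v.2 + 4 * U) :=
    fun e he => dl_RE (Finset.mem_coe.mp he.1)
  have sR : (↑(LRE U (6 * U) 0 (38 * U) \ F) : Set Edg) ⊆ (↑D.edges \ D.cfg F : Set Edg) := by
    refine free_sub hD (a := U) (b := 6 * U) (c := 0) (d := 38 * U)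
      (by omega) (by omega) (by omega) (by omega) (by omega) ?_
    intro e he
    rw [Finset.mem_coe, Finset.mem_sdiff] at he
    exact ⟨Finset.mem_coe.mpr (LRE_subset_RE he.1), he.2⟩
  have rR : ∀ e ∈ (↑(LRE U (6 * U) 0 (38 * U) \ F) : Set Edg),
      dl e ∈ RE U (6 * U - 1) (0 - 1) (38 * U) := by
    intro e he
    rw [Finset.mem_coe, Finset.mem_sdiff] at he
    exact dl_LRE he.1
  have sT : (↑(TBE (-(24 * U)) (6 * U) (36 * U) (38 * U) \ F) : Set Edg) ⊆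
      (↑D.edges \ D.cfg F : Set Edg) := by
    refine free_sub hD (a := -(24 * U)) (b := 6 * U) (c := 36 * U) (d := 38 * U)
      (by omega) (by omega) (by omega) (by omega) (by omega) ?_
    intro e he
    rw [Finset.mem_coe, Finset.mem_sdiff] at he
    exact ⟨Finset.mem_coe.mpr (TBE_subset_RE he.1), he.2⟩
  have rT : ∀ e ∈ (↑(TBE (-(24 * U)) (6 * U) (36 * U) (38 * U) \ F) : Set Edg),
      dl e ∈ RE (-(24 * U) - 1) (6 * U) (36 * U) (38 * U - 1) := by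
    intro e he
    rw [Finset.mem_coe, Finset.mem_sdiff] at he
    exact dl_TBE he.1
  have sL : (↑(LRE (-(24 * U)) (-(19 * U)) (12 * U) (38 * U) \ F) : Set Edg) ⊆
      (↑D.edges \ D.cfg F : Set Edg) := by
    refine free_sub hD (a := -(24 * U)) (b := -(19 * U)) (c := 12 * U) (d := 38 * U)
      (by omega) (by omega) (by omega) (by omega) (by omega) ?_
    intro e he
    rw [Finset.mem_coe, Finset.mem_sdiff] at he
    exact ⟨Finset.mem_coe.mpr (LRE_subset_RE he.1), he.2⟩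
  have rL : ∀ e ∈ (↑(LRE (-(24 * U)) (-(19 * U)) (12 * U) (38 * U) \ F) : Set Edg),
      dl e ∈ RE (-(24 * U)) (-(19 * U) - 1) (12 * U - 1) (38 * U) := by
    intro e he
    rw [Finset.mem_coe, Finset.mem_sdiff] at he
    exact dl_LRE he.1
  have hout : ((x, -1) : Vtx) ∈ D.outer := Or.inl ⟨rfl, by simp only; omega, by simp only; omega⟩
  -- right arm
  have m1 := dcross_meet (G := (↑D.edges \ D.cfg F : Set Edg)) (A := v.1 - 16 * U - 1)
    (B := v.1 + 16 * U) (C := 0 - 1) (D := 38 * U) (a := U) (b := 6 * U - 1)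
    (c := v.2 - 4 * U - 1) (d := v.2 + 4 * U) (by omega) (by omega) (by omega) (by omega)
    (by omega) (by omega) hfg' sA rA (by omega) (by omega) hR sR rR (by simp only; omega)
    (by simp only; omega)
  -- left arm
  have m2 := dcross_meet (G := (↑D.edges \ D.cfg F : Set Edg)) (A := v.1 - 16 * U - 1)
    (B := v.1 + 16 * U) (C := 12 * U - 1) (D := 38 * U) (a := -(24 * U)) (b := -(19 * U) - 1)
    (c := v.2 - 4 * U - 1) (d := v.2 + 4 * U) (by omega) (by omega) (by omega) (by omega)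
    (by omega) (by omega) hfg.symm sA rA (by omega) (by omega) hL sL rL (by simp only; omega)
    (by simp only; omega)
  have m3 := dcross_meet (G := (↑D.edges \ D.cfg F : Set Edg)) (A := -(24 * U) - 1)
    (B := 6 * U) (C := 12 * U - 1) (D := 38 * U) (a := -(24 * U)) (b := -(19 * U) - 1)
    (c := 36 * U) (d := 38 * U - 1) (by omega) (by omega) (by omega) (by omega)
    (by omega) (by omega) hT sT rT (by simp only; omega) (by simp only; omega) hL sL rL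
    (by simp only; omega) (by simp only; omega)
  have m4 := dcross_meet (G := (↑D.edges \ D.cfg F : Set Edg)) (A := -(24 * U) - 1)
    (B := 6 * U) (C := 0 - 1) (D := 38 * U) (a := U) (b := 6 * U - 1)
    (c := 36 * U) (d := 38 * U - 1) (by omega) (by omega) (by omega) (by omega)
    (by omega) (by omega) hT sT rT (by simp only; omega) (by simp only; omega) hR sR rR
    (by simp only; omega) (by simp only; omega)
  refine ⟨⟨(x, -1), hout, ?_⟩, ⟨(x, -1), hout, m1.symm⟩⟩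
  have m5 : DReach (↑D.edges \ D.cfg F : Set Edg) f g := hfg.mono sA
  exact (m4.symm.trans m3).trans (m2.symm.trans m5.symm)

/-- The state of `v` whose face is the first face of the edge `(v, β)`. -/
def qd (β : Bool) : Q4 := if β then .se else .nw

theorem face_qd (v : Vtx) (β : Bool) : face (v, qd β) = dsrc (v.1, v.2, β) := by
  cases β <;> rfl

theorem face_ne' (v : Vtx) : face (v, .ne) = v := rfl

theorem ae_box {v : Vtx} {U : ℤ} (hU : 128 ≤ U) {σ : St} (h : sd σ.1 v < 15 * U) :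
    ae σ ∈ RE (v.1 - 16 * U) (v.1 + 16 * U) (v.2 - 16 * U) (v.2 + 16 * U) := by
  unfold sd at h
  rw [max_lt_iff, abs_lt, abs_lt] at h
  obtain ⟨⟨x, y⟩, q⟩ := σ
  simp only at h
  cases q
  · rw [ae_ne, mem_RE_true]; omega
  · rw [ae_nw, mem_RE_false]; omega
  · rw [ae_sw, mem_RE_true]; omega
  · rw [ae_se, mem_RE_false]; omega

/-- Between two visits on both sides of an open edge with two arms there is an excursion. -/
theorem excursion {D : Dm} {F : Finset Edg} {U : ℤ} (hU : 128 ≤ U) {v : Vtx} {β : Bool}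
    (he : ((v.1, v.2, β) : Edg) ∈ F) {a a' w w' : Vtx}
    (hor : (a = v ∧ a' = tgt (v.1, v.2, β)) ∨ (a = tgt (v.1, v.2, β) ∧ a' = v))
    (hw : w.2 = v.2 - 16 * U) (hw' : w'.2 = v.2 + 16 * U)
    (hr : Reach ((↑F ∩ ↑(RE (v.1 - 4 * U) (v.1 + 4 * U) (v.2 - 16 * U) (v.2 + 16 * U))) \
          {((v.1, v.2, β) : Edg)}) a w)
    (hr' : Reach ((↑F ∩ ↑(RE (v.1 - 4 * U) (v.1 + 4 * U) (v.2 - 16 * U) (v.2 + 16 * U))) \
          {((v.1, v.2, β) : Edg)}) a' w')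
    {i l : ℕ} (hil : i < l)
    (hi : (D.walk F i).1 = v) (hl : (D.walk F l).1 = v)
    (hd : (face (D.walk F i) = dsrc (v.1, v.2, β) ∧ face (D.walk F l) = v) ∨
      (face (D.walk F i) = v ∧ face (D.walk F l) = dsrc (v.1, v.2, β))) :
    ∃ j, i < j ∧ j < l ∧ 15 * U ≤ sd (D.walk F j).1 v := by
  by_contra hcon
  push Not at hcon
  have hin : ∀ s, i ≤ s → s < l → sd (D.walk F s).1 v < 15 * U := by
    intro s h1 h2
    rcases Nat.eq_or_lt_of_le h1 with h3 | h3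
    · rw [← h3, hi]
      unfold sd
      simp
      omega
    · exact hcon s h3 h2
  set W : Set Edg := ↑(RE (v.1 - 16 * U) (v.1 + 16 * U) (v.2 - 16 * U) (v.2 + 16 * U)) with hW
  have hdr : DReach (W \ D.cfg F) (face (D.walk F i)) (face (D.walk F l)) := by
    have h := orb_dreach (F := D.cfg F) (W := W) (σ := D.walk F i) (T := l - i) (by
      intro s hs
      have h1 : orb (D.cfg F) (D.walk F i) s = D.walk F (s + i) := by
        unfold Dm.walk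
        rw [← orb_add]
      rw [h1]
      exact Finset.mem_coe.mpr (ae_box hU (hin (s + i) (by omega) (by omega)))) (s := l - i) le_rfl
    have h1 : orb (D.cfg F) (D.walk F i) (l - i) = D.walk F l := by
      unfold Dm.walk
      rw [← orb_add, Nat.sub_add_cancel hil.le]
    rwa [h1] at h
  set e : Edg := (v.1, v.2, β) with hedef
  have heR : e ∈ RE (v.1 - 16 * U) (v.1 + 16 * U) (v.2 - 16 * U) (v.2 + 16 * U) := by
    rw [hedef]
    cases β
    · rw [mem_RE_false]; omega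
    · rw [mem_RE_true]; omega
  set G : Set Edg := (↑F ∩ W) \ {e} with hG
  have hGsub : G ⊆ ↑(RE (v.1 - 16 * U) (v.1 + 16 * U) (v.2 - 16 * U) (v.2 + 16 * U)) :=
    fun x hx => hx.1.2
  have harm : ∀ b u : Vtx, b = v ∨ b = tgt e → (u.2 ≤ v.2 - 16 * U ∨ v.2 + 16 * U ≤ u.2) →
      Reach ((↑F ∩ ↑(RE (v.1 - 4 * U) (v.1 + 4 * U) (v.2 - 16 * U) (v.2 + 16 * U))) \ {e}) b u →
      ∃ w ∈ bdR (v.1 - 16 * U) (v.1 + 16 * U) (v.2 - 16 * U) (v.2 + 16 * U), Reach G b w := by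
    intro b u hb hu hbu
    have hbin : inR (v.1 - 16 * U) (v.1 + 16 * U) (v.2 - 16 * U) (v.2 + 16 * U) b := by
      unfold inR
      rcases hb with rfl | rfl
      · omega
      · rw [hedef]
        cases β
        · rw [tgt_false]; simp only; omega
        · rw [tgt_true]; simp only; omega
    obtain ⟨w, h1, h2, h3⟩ := first_exit hbin hbu (by omega)
    refine ⟨w, ⟨h1, h2⟩, h3.mono ?_⟩
    rintro x ⟨⟨⟨h4, -⟩, h5⟩, h6⟩
    exact ⟨⟨h4, h6⟩, h5⟩
  have hsrc : src e = v := rfl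
  have ha1 : ∃ w ∈ bdR (v.1 - 16 * U) (v.1 + 16 * U) (v.2 - 16 * U) (v.2 + 16 * U),
      Reach G (src e) w := by
    rw [hsrc]
    rcases hor with ⟨h1, h2⟩ | ⟨h1, h2⟩
    · exact harm v w (Or.inl rfl) (Or.inl hw.le) (h1 ▸ hr)
    · exact harm v w' (Or.inl rfl) (Or.inr hw'.ge) (h2 ▸ hr')
  have ha2 : ∃ w ∈ bdR (v.1 - 16 * U) (v.1 + 16 * U) (v.2 - 16 * U) (v.2 + 16 * U),
      Reach G (tgt e) w := by
    rcases hor with ⟨h1, h2⟩ | ⟨h1, h2⟩
    · exact harm _ w' (Or.inr rfl) (Or.inr hw'.ge) (h2 ▸ hr')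
    · exact harm _ w (Or.inr rfl) (Or.inl hw.le) (h1 ▸ hr)
  have hsep := dual_sep hGsub heR (fun h => h.2 rfl) ha1 ha2
  apply hsep
  have hsub : W \ D.cfg F ⊆ (W \ G) \ {e} := by
    rintro x ⟨h1, h2⟩
    refine ⟨⟨h1, fun h3 => h2 (Or.inl h3.1.1)⟩, ?_⟩
    intro h3
    rw [Set.mem_singleton_iff] at h3
    exact h2 (Or.inl (by rw [h3]; exact Finset.mem_coe.mpr he))
  have hdt : dtgt e = v := rfl
  rw [hdt]
  rcases hd with ⟨h1, h2⟩ | ⟨h1, h2⟩
  · rw [h1, h2] at hdr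
    exact hdr.mono hsub
  · rw [h1, h2] at hdr
    exact (hdr.mono hsub).symm

theorem det : St_arms → St_det := by
  intro hA D F hD hF L m h2 h64 hl hr hh hGO hGD v hv hE
  set U : ℤ := ((L * m : ℕ) : ℤ) with hUdef
  have hU : 128 ≤ U := by
    rw [hUdef]
    have : 2 * 64 ≤ L * m := Nat.mul_le_mul h2 h64
    omega
  obtain ⟨β, he, ⟨a, a', hor, ⟨w, hw, hra⟩, ⟨w', hw', hra'⟩⟩,
    ⟨f, f', hfor, ⟨g, hg, hfg⟩, ⟨g', hg', hfg'⟩⟩⟩ := arms_tr hA h2 h64 hE hUdef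
  have hv2 := mem_core4.mp hv
  -- the open side
  have hac : a ∈ D.clu F := by
    refine open_part hU hl hGO hv hw ?_ hra
    rcases hor with ⟨rfl, -⟩ | ⟨rfl, -⟩
    · exact le_rfl
    · cases β
      · rw [tgt_false]; simp only; omega
      · rw [tgt_true]
  have hvc : v ∈ D.clu F := by
    rcases hor with ⟨h1, -⟩ | ⟨h1, -⟩
    · rwa [h1] at hac
    · rw [h1] at hac
      have h3 : Reach (D.cfg F) (0, 0) (tgt (v.1, v.2, β)) := hac
      exact h3.trans (Adj.reach ⟨(v.1, v.2, β), Or.inl (Finset.mem_coe.mpr he), Or.inr ⟨rfl, rfl⟩⟩)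
  -- the dual side
  have hds : v.1 - 1 ≤ (dsrc (v.1, v.2, β)).1 ∧ (dsrc (v.1, v.2, β)).1 ≤ v.1 := by
    cases β
    · rw [dsrc_false]; simp only; omega
    · rw [dsrc_true]; simp only; omega
  have hff : f ∈ D.dclu F ∧ f' ∈ D.dclu F := by
    refine dual_part hD hU hl hr hh hGD hv ?_ ?_ hg hfg hg' hfg'
    · rcases hfor with ⟨rfl, -⟩ | ⟨rfl, -⟩
      · exact hds.1
      · omega
    · rcases hfor with ⟨-, rfl⟩ | ⟨-, rfl⟩
      · exact le_rfl
      · exact hds.2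
  have hdc : dsrc (v.1, v.2, β) ∈ D.dclu F ∧ v ∈ D.dclu F := by
    rcases hfor with ⟨h1, h3⟩ | ⟨h1, h3⟩
    · rw [← h1, ← h3]; exact hff
    · exact ⟨h3 ▸ hff.2, h1 ▸ hff.1⟩
  obtain ⟨k1, hk1, hk1'⟩ := H443B.visited hD hF (σ := (v, .ne)) hvc (by rw [face_ne']; exact hdc.2)
  obtain ⟨k2, hk2, hk2'⟩ := H443B.visited hD hF (σ := (v, qd β)) hvc
    (by rw [face_qd]; exact hdc.1)
  have hne : k1 ≠ k2 := by
    intro h
    rw [h, hk2'] at hk1'
    have h3 := congrArg Prod.snd hk1'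
    cases β <;> simp [qd] at h3
  have f1 : face (D.walk F k1) = v := by rw [hk1']; rfl
  have f2 : face (D.walk F k2) = dsrc (v.1, v.2, β) := by rw [hk2']; exact face_qd v β
  have g1 : (D.walk F k1).1 = v := by rw [hk1']
  have g2 : (D.walk F k2).1 = v := by rw [hk2']
  rcases Nat.lt_or_gt_of_ne hne with hlt | hlt
  · obtain ⟨j, h1, h3, h4⟩ := excursion (D := D) hU he hor hw hw' hra hra' hlt g1 g2
      (Or.inr ⟨f1, f2⟩)
    exact ⟨k1, j, k2, h1, h3, hk2, g1, g2, h4⟩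
  · obtain ⟨j, h1, h3, h4⟩ := excursion (D := D) hU he hor hw hw' hra hra' hlt g2 g1
      (Or.inl ⟨f2, f1⟩)
    exact ⟨k2, j, k1, h1, h3, hk1, g2, g1, h4⟩

end Pool.Agent.W801.DPdet
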