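import Pool.Agent.W801.Poho4

set_option autoImplicit false
open MeasureTheory Filter Topology Set
open scoped ENNReal NNReal

namespace Pool.Agent.W801.Poho

lemma integral_dil (f : E → ℝ) {t : ℝ} (ht : 0 < t) :
    ∫ x, f (t • x) = (t ^ 3)⁻¹ * ∫ x, f x := by
  rw [Measure.integral_comp_smul_of_nonneg (volume : Measure E) f t (hR := ht.le), finrankE,
    smul_eq_mul]

lemma eLpNorm_smul' {F : Type*} [NormedAddCommGroup F] [NormedSpace ℝ F] (c : ℝ) (f : E → F)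
    (p : ℝ≥0∞) : eLpNorm (fun x => c • f x) p volume = ‖c‖ₑ * eLpNorm f p volume :=
  eLpNorm_const_smul c f p volume

lemma aesm_smul' {F : Type*} [NormedAddCommGroup F] [NormedSpace ℝ F] (c : ℝ) {f : E → F}
    (hf : AEStronglyMeasurable f volume) : AEStronglyMeasurable (fun x => c • f x) volume :=
  hf.const_smul c

lemma eLpNorm_mul' (c : ℝ) (f : E → ℝ) (p : ℝ≥0∞) :
    eLpNorm (fun x => c * f x) p volume = ‖c‖ₑ * eLpNorm f p volume :=
  eLpNorm_const_smul c f p volume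

lemma eLpNorm_neg' (f : E → ℝ) (p : ℝ≥0∞) :
    eLpNorm (fun x => - f x) p volume = eLpNorm f p volume :=
  eLpNorm_neg f p volume

lemma young5 {a b : ℝ} (ha : 0 ≤ a) (hb : 0 ≤ b) : (a ^ 5 - b ^ 5) / 5 ≤ a ^ 4 * (a - b) := by
  have : a ^ 4 * (a - b) - (a ^ 5 - b ^ 5) / 5
      = (a - b) ^ 2 * (4 * a ^ 3 + 3 * a ^ 2 * b + 2 * a * b ^ 2 + b ^ 3) / 5 := by ring
  have h2 : 0 ≤ (a - b) ^ 2 * (4 * a ^ 3 + 3 * a ^ 2 * b + 2 * a * b ^ 2 + b ^ 3) / 5 := by
    positivity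
  linarith

lemma taylor4 (a b : ℝ) :
    4 * (a ^ 3 * (a - b)) ≤ (a ^ 4 - b ^ 4) + (a - b) * ((a - b) * (4 * a ^ 2 + 2 * b ^ 2)) := by
  have : (a ^ 4 - b ^ 4) + (a - b) * ((a - b) * (4 * a ^ 2 + 2 * b ^ 2)) - 4 * (a ^ 3 * (a - b))
      = (a - b) ^ 2 * (a - b) ^ 2 := by ring
  have h2 : 0 ≤ (a - b) ^ 2 * (a - b) ^ 2 := by positivity
  linarith

lemma integrable_p5 {u : E → ℝ} (h2 : MemLp u 2 volume) (h6 : MemLp u 6 volume)
    (h0 : ∀ᵐ x, 0 ≤ u x) : Integrable (fun x => u x ^ 5) volume := by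
  refine (integrable_pow h2 h6 5 (by norm_num) (by norm_num)).congr ?_
  filter_upwards [h0] with x hx
  rw [Real.norm_of_nonneg hx]
  exact_mod_cast Real.rpow_natCast (u x) 5

lemma sq_eq (u w : E → ℝ) : (fun x => (u x - w x) * (4 * u x ^ 2 + 2 * w x ^ 2))
    = (fun x => (u x - w x) * (4 * (u x * u x) + 2 * (w x * w x))) := by
  funext x; ring

lemma mem_sq {u : E → ℝ} (hu6 : MemLp u 6 volume) : MemLp (fun x => u x * u x) 3 volume := by
  have := ht663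
  exact MemLp.mul' (p := 6) (q := 6) (r := 3) hu6 hu6

lemma mem_prod {u w : E → ℝ} (hu6 : MemLp u 6 volume) (hw6 : MemLp w 6 volume)
    (hd6 : MemLp (fun x => u x - w x) 6 volume) :
    MemLp (fun x => (u x - w x) * (4 * u x ^ 2 + 2 * w x ^ 2)) 2 volume := by
  rw [sq_eq]
  have := ht632
  have k3 : MemLp (fun x => 4 * (u x * u x) + 2 * (w x * w x)) 3 volume :=
    ((mem_sq hu6).const_mul 4).add ((mem_sq hw6).const_mul 2)
  exact MemLp.mul' (p := 6) (q := 3) (r := 2) k3 hd6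

lemma norm_sq_le {u : E → ℝ} (hu6 : MemLp u 6 volume) :
    eLpNorm (fun x => u x * u x) 3 volume ≤ eLpNorm u 6 volume * eLpNorm u 6 volume := by
  have := ht663
  have h := eLpNorm_smul_le_mul_eLpNorm (p := 6) (q := 6) (r := 3) (f := u) (φ := u) hu6.1 hu6.1
  have e : (fun x => u x * u x) = u • u := rfl
  rw [e]
  exact h

lemma norm_prod {u w : E → ℝ} (hu6 : MemLp u 6 volume) (hw6 : MemLp w 6 volume)
    (hd6 : MemLp (fun x => u x - w x) 6 volume)
    (hm : (eLpNorm w 6 volume).toReal = (eLpNorm u 6 volume).toReal) :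
    (eLpNorm (fun x => (u x - w x) * (4 * u x ^ 2 + 2 * w x ^ 2)) 2 volume).toReal
      ≤ (eLpNorm (fun x => u x - w x) 6 volume).toReal
        * (6 * (eLpNorm u 6 volume).toReal ^ 2) := by
  have l1 := norm_sq_le hu6
  have l2 := norm_sq_le hw6
  have l3 : eLpNorm (fun x => (4 : ℝ) * (u x * u x) + 2 * (w x * w x)) 3 volume
      ≤ 4 * (eLpNorm u 6 volume * eLpNorm u 6 volume)
        + 2 * (eLpNorm w 6 volume * eLpNorm w 6 volume) := by
    have q1 : eLpNorm (fun x => (4 : ℝ) * (u x * u x)) 3 volume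
        = ‖(4 : ℝ)‖ₑ * eLpNorm (fun x => u x * u x) 3 volume :=
      eLpNorm_mul' (4 : ℝ) (fun x : E => u x * u x) 3
    have q2 : eLpNorm (fun x => (2 : ℝ) * (w x * w x)) 3 volume
        = ‖(2 : ℝ)‖ₑ * eLpNorm (fun x => w x * w x) 3 volume :=
      eLpNorm_mul' (2 : ℝ) (fun x : E => w x * w x) 3
    have q3 : ‖(4 : ℝ)‖ₑ = 4 := by
      rw [Real.enorm_eq_ofReal (by norm_num)]; norm_num
    have q4 : ‖(2 : ℝ)‖ₑ = 2 := by
      rw [Real.enorm_eq_ofReal (by norm_num)]; norm_num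
    refine (eLpNorm_add_le ((mem_sq hu6).const_mul 4).1 ((mem_sq hw6).const_mul 2).1
      (by norm_num)).trans ?_
    rw [q1, q2, q3, q4]
    gcongr
  have l4 : eLpNorm (fun x => (u x - w x) * (4 * (u x * u x) + 2 * (w x * w x))) 2 volume
      ≤ eLpNorm (fun x => u x - w x) 6 volume
        * eLpNorm (fun x => (4 : ℝ) * (u x * u x) + 2 * (w x * w x)) 3 volume := by
    have := ht632
    have h := eLpNorm_smul_le_mul_eLpNorm (p := 6) (q := 3) (r := 2)
      (f := fun x => 4 * (u x * u x) + 2 * (w x * w x)) (φ := fun x => u x - w x)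
      (((mem_sq hu6).const_mul 4).add ((mem_sq hw6).const_mul 2)).1 hd6.1
    have e : (fun x => (u x - w x) * (4 * (u x * u x) + 2 * (w x * w x)))
        = (fun x => u x - w x) • (fun x => 4 * (u x * u x) + 2 * (w x * w x)) := rfl
    rw [e]
    exact h
  have l5 : eLpNorm (fun x => (u x - w x) * (4 * u x ^ 2 + 2 * w x ^ 2)) 2 volume
      ≤ eLpNorm (fun x => u x - w x) 6 volume
        * (4 * (eLpNorm u 6 volume * eLpNorm u 6 volume)
        + 2 * (eLpNorm w 6 volume * eLpNorm w 6 volume)) := by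
    rw [sq_eq]
    exact l4.trans (by gcongr)
  have f1 : eLpNorm u 6 volume ≠ ⊤ := hu6.2.ne
  have f2 : eLpNorm w 6 volume ≠ ⊤ := hw6.2.ne
  have f3 : eLpNorm (fun x => u x - w x) 6 volume ≠ ⊤ := hd6.2.ne
  have f4 : (4 * (eLpNorm u 6 volume * eLpNorm u 6 volume)
        + 2 * (eLpNorm w 6 volume * eLpNorm w 6 volume)) ≠ ⊤ := by finiteness
  have l6 := ENNReal.toReal_mono (ENNReal.mul_ne_top f3 f4) l5
  rw [ENNReal.toReal_mul, ENNReal.toReal_add (by finiteness) (by finiteness),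
    ENNReal.toReal_mul, ENNReal.toReal_mul, ENNReal.toReal_mul, ENNReal.toReal_mul, hm] at l6
  refine l6.trans (le_of_eq ?_)
  simp only [ENNReal.toReal_ofNat]
  ring

lemma IsPair.dil_hardy {Ω : Set E} {u : E → ℝ} {G : E → E} (h : IsPair Ω u G) {a t : ℝ}
    (ha : 1 ≤ a) (ht1 : 1 ≤ t) (ht : t = a ^ 2) :
    (eLpNorm (fun x => ‖x‖⁻¹ * (u x - a * u (t • x))) 2 volume).toReal
      ≤ 3 * (t - 1) * (eLpNorm G 2 volume).toReal := by
  have ha0 : 0 < a := by linarith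
  have ht0 : 0 < t := by linarith
  have e : (fun x : E => ‖x‖⁻¹ * (u x - a * u (t • x))) = (fun x : E => -(‖x‖⁻¹ * (u (t • x) - u x)))
      + (fun x : E => (-((a - 1) * t)) • (fun y : E => ‖y‖⁻¹ * u y) (t • x)) := by
    funext x
    simp only [Pi.add_apply, smul_eq_mul, norm_smul, Real.norm_eq_abs, abs_of_pos ht0,
      mul_inv]
    field_simp
    ring
  have n1 : eLpNorm (fun x : E => -(‖x‖⁻¹ * (u (t • x) - u x))) 2 volume
      ≤ ENNReal.ofReal (t - 1) * eLpNorm G 2 volume := by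
    have : eLpNorm (fun x : E => -(‖x‖⁻¹ * (u (t • x) - u x))) 2 volume
        = eLpNorm (fun x : E => (‖x‖⁻¹ * (u (t • x) - u x))) 2 volume :=
      eLpNorm_neg' (fun x : E => (‖x‖⁻¹ * (u (t • x) - u x))) 2
    rw [this]
    exact h.dil_diff ht1
  have n2 : eLpNorm (fun x : E => (-((a - 1) * t)) • (fun y : E => ‖y‖⁻¹ * u y) (t • x)) 2 volume
      ≤ ENNReal.ofReal (a - 1) * (4 * eLpNorm G 2 volume) := by
    have q1 : eLpNorm (fun x : E => (-((a - 1) * t)) • (fun y : E => ‖y‖⁻¹ * u y) (t • x)) 2 volume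
        = ‖-((a - 1) * t)‖ₑ * eLpNorm (fun x : E => (fun y : E => ‖y‖⁻¹ * u y) (t • x)) 2 volume :=
      eLpNorm_smul' _ (fun x : E => (fun y : E => ‖y‖⁻¹ * u y) (t • x)) 2
    rw [q1, eLpNorm_dil (fun y : E => ‖y‖⁻¹ * u y) 2 ht0, ← mul_assoc]
    have q2 : ‖-((a - 1) * t)‖ₑ * ENNReal.ofReal (t ^ 3)⁻¹ ^ (1 / (2 : ℝ≥0∞)).toReal
        ≤ ENNReal.ofReal (a - 1) := by
      have q3 : (1 / (2 : ℝ≥0∞)).toReal = 1 / 2 := by simp
      rw [q3, enorm_neg, Real.enorm_eq_ofReal (by nlinarith),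
        ENNReal.ofReal_rpow_of_nonneg (by positivity) (by norm_num),
        ← ENNReal.ofReal_mul (by nlinarith), ← Real.sqrt_eq_rpow]
      apply ENNReal.ofReal_le_ofReal
      have q4 : Real.sqrt ((t ^ 3)⁻¹) = (a ^ 3)⁻¹ := by
        rw [show (t ^ 3)⁻¹ = ((a ^ 3)⁻¹) ^ 2 by rw [ht]; field_simp]
        exact Real.sqrt_sq (by positivity)
      rw [q4, ht]
      have : (a - 1) * a ^ 2 * (a ^ 3)⁻¹ = (a - 1) * a⁻¹ := by field_simp
      rw [this]
      have : a⁻¹ ≤ 1 := inv_le_one_of_one_le₀ ha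
      nlinarith
    exact mul_le_mul' q2 h.hardy
  have n3 : eLpNorm (fun x : E => ‖x‖⁻¹ * (u x - a * u (t • x))) 2 volume
      ≤ ENNReal.ofReal (t - 1) * eLpNorm G 2 volume
        + ENNReal.ofReal (a - 1) * (4 * eLpNorm G 2 volume) := by
    rw [e]
    have k1 : AEStronglyMeasurable (fun x : E => -(‖x‖⁻¹ * (u (t • x) - u x))) volume :=
      ((measurable_norm.inv.aestronglyMeasurable).mul
        ((memLp_dil h.mu ht0).1.sub h.mu.1)).neg
    have k2 : AEStronglyMeasurable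
        (fun x : E => (-((a - 1) * t)) • (fun y : E => ‖y‖⁻¹ * u y) (t • x)) volume :=
      aesm_smul' _ (memLp_dil h.memHardy ht0).1
    exact (eLpNorm_add_le k1 k2 (by norm_num)).trans (add_le_add n1 n2)
  have fG : eLpNorm G 2 volume ≠ ⊤ := h.mG.2.ne
  have n4 := ENNReal.toReal_mono (by finiteness) n3
  rw [ENNReal.toReal_add (by finiteness) (by finiteness), ENNReal.toReal_mul,
    ENNReal.toReal_mul, ENNReal.toReal_mul, ENNReal.toReal_ofReal (by linarith),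
    ENNReal.toReal_ofReal (by linarith)] at n4
  refine n4.trans ?_
  simp only [ENNReal.toReal_ofNat]
  have hg0 : 0 ≤ (eLpNorm G 2 volume).toReal := ENNReal.toReal_nonneg
  have : a - 1 ≤ (t - 1) / 2 := by rw [ht]; nlinarith [sq_nonneg (a - 1)]
  nlinarith [mul_le_mul_of_nonneg_right this hg0]

/-- the main inequality -/
lemma main_ineq {Ω : Set E} {u : E → ℝ} {G : E → E} (h : IsPair Ω u G) (hw : Weak Ω u G)
    (h0 : ∀ᵐ x, 0 ≤ u x) (hΩ : ∀ t : ℝ, 1 ≤ t → ∀ x, t • x ∈ Ω → x ∈ Ω) :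
    ∃ K : ℝ, ∀ a : ℝ, 1 ≤ a →
      (1 - a⁻¹) * (∫ x, u x ^ 5) ≤ K * (a ^ 2 - 1) ^ 2 := by
  obtain ⟨S, hS⟩ := sobolev_pair
  set g : ℝ := (eLpNorm G 2 volume).toReal with hg
  set m : ℝ := (eLpNorm u 6 volume).toReal with hm
  refine ⟨5 * ((9 / 2) * g * m ^ 2 * S) ^ 2 / 2, fun a ha => ?_⟩
  have ha0 : 0 < a := by linarith
  set t : ℝ := a ^ 2 with ht
  have ht1 : 1 ≤ t := one_le_pow₀ ha
  have ht0 : 0 < t := by linarith
  set w : E → ℝ := fun x => a * u (t • x) with hwdef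
  set W : E → E := fun x => (a * t) • G (t • x) with hWdef
  have hwp : IsPair Ω w W := h.dil a ht0 (hΩ t ht1)
  have hd : IsPair Ω (fun x => u x - w x) (fun x => G x - W x) := h.sub hwp
  have hw0 : ∀ᵐ x, 0 ≤ w x := by
    filter_upwards [ae_dil h0 ht0] with x hx using mul_nonneg ha0.le hx
  have hu6 := h.mem6
  have hw6 := hwp.mem6
  -- scaling identities
  have hsG : ∫ x, ‖W x‖ ^ 2 = ∫ x, ‖G x‖ ^ 2 := by
    have e : ∀ x, ‖W x‖ ^ 2 = (a * t) ^ 2 * (fun y => ‖G y‖ ^ 2) (t • x) := by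
      intro x
      simp only [hWdef, norm_smul, Real.norm_eq_abs, mul_pow, sq_abs]
    simp_rw [e]
    rw [integral_const_mul, integral_dil (fun y => ‖G y‖ ^ 2) ht0, ← mul_assoc]
    have : (a * t) ^ 2 * (t ^ 3)⁻¹ = 1 := by rw [ht]; field_simp
    rw [this, one_mul]
  have hs5 : ∫ x, w x ^ 5 = a⁻¹ * ∫ x, u x ^ 5 := by
    have e : ∀ x, w x ^ 5 = a ^ 5 * (fun y => u y ^ 5) (t • x) := by
      intro x; simp only [hwdef, mul_pow]
    simp_rw [e]
    rw [integral_const_mul, integral_dil (fun y => u y ^ 5) ht0, ← mul_assoc]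
    congr 1
    rw [ht]; field_simp
  have hs4 : ∫ x, ‖x‖⁻¹ * w x ^ 4 = ∫ x, ‖x‖⁻¹ * u x ^ 4 := by
    have e : ∀ x : E, ‖x‖⁻¹ * w x ^ 4 = (a ^ 4 * t) * (fun y => ‖y‖⁻¹ * u y ^ 4) (t • x) := by
      intro x
      simp only [hwdef, mul_pow, norm_smul, Real.norm_eq_abs, abs_of_pos ht0, mul_inv]
      field_simp
    simp_rw [e]
    rw [integral_const_mul, integral_dil (fun y => ‖y‖⁻¹ * u y ^ 4) ht0, ← mul_assoc]
    have : a ^ 4 * t * (t ^ 3)⁻¹ = 1 := by rw [ht]; field_simp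
    rw [this, one_mul]
  have hsn6 : (eLpNorm w 6 volume).toReal = m := by
    have e : eLpNorm w 6 volume = ‖a‖ₑ * eLpNorm (fun x => u (t • x)) 6 volume :=
      eLpNorm_mul' a (fun x : E => u (t • x)) 6
    rw [e, eLpNorm_dil u 6 ht0, ← mul_assoc, ENNReal.toReal_mul, ENNReal.toReal_mul,
      ← ENNReal.toReal_rpow, ENNReal.toReal_ofReal (by positivity), toReal_enorm,
      Real.norm_of_nonneg ha0.le]
    have e2 : (1 / (6 : ℝ≥0∞)).toReal = 1 / 6 := by simp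
    have e3 : ((t ^ 3)⁻¹ : ℝ) ^ (1 / 6 : ℝ) = a⁻¹ := by
      have e4 : ((t ^ 3)⁻¹ : ℝ) = (a⁻¹) ^ (6 : ℝ) := by
        rw [ht, show (6 : ℝ) = ((6 : ℕ) : ℝ) by norm_num, Real.rpow_natCast]
        field_simp
      rw [e4, ← Real.rpow_mul (by positivity)]
      norm_num
    rw [e2, e3, mul_inv_cancel₀ ha0.ne', one_mul]
  -- the weak equation tested with u - w
  have hE := hw.pair h hd
  -- the quadratic identity
  have hQ : ∫ x, ‖G x - W x‖ ^ 2 = 2 * ∫ x, (inner ℝ (G x) (G x - W x) : ℝ) := by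
    have i1 : Integrable (fun x => ‖G x‖ ^ 2) volume := by
      have := integrable_inner (p := 2) (q := 2) h.mG h.mG
      simpa only [real_inner_self_eq_norm_sq] using this
    have i2 : Integrable (fun x => ‖W x‖ ^ 2) volume := by
      have := integrable_inner (p := 2) (q := 2) hwp.mG hwp.mG
      simpa only [real_inner_self_eq_norm_sq] using this
    have i3 : Integrable (fun x => (inner ℝ (G x) (G x - W x) : ℝ)) volume :=
      integrable_inner (p := 2) (q := 2) h.mG hd.mG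
    have e : ∀ x, ‖G x - W x‖ ^ 2
        = 2 * (inner ℝ (G x) (G x - W x) : ℝ) + (‖W x‖ ^ 2 - ‖G x‖ ^ 2) := by
      intro x
      rw [@norm_sub_sq_real, inner_sub_right, real_inner_self_eq_norm_sq]
      ring
    simp_rw [e]
    have i21 : Integrable (fun x => ‖W x‖ ^ 2 - ‖G x‖ ^ 2) volume := i2.sub i1
    rw [integral_add (i3.const_mul 2) i21, integral_const_mul, integral_sub i2 i1, hsG]
    ring
  -- the absorption term
  have h5 : (1 - a⁻¹) / 5 * (∫ x, u x ^ 5) ≤ ∫ x, u x ^ 4 * (u x - w x) := by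
    have := ht665
    have i1 := integrable_p5 h.mu hu6 h0
    have i2 := integrable_p5 hwp.mu hw6 hw0
    have i3 : Integrable (fun x => u x ^ 4 * (u x - w x)) volume :=
      integrable_mul' (p := 6 / 5) (q := 6) (memLp_pow4 h.mu hu6) hd.mem6
    have e : (1 - a⁻¹) / 5 * (∫ x, u x ^ 5) = ∫ x, (u x ^ 5 - w x ^ 5) / 5 := by
      rw [integral_div, integral_sub i1 i2, hs5]; ring
    rw [e]
    apply integral_mono_ae ((i1.sub i2).div_const 5) i3
    filter_upwards [h0, hw0] with x hx hx' using young5 hx hx'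
  -- the singular term
  have i4 : ∀ {v : E → ℝ} {H : E → E}, IsPair Ω v H → Integrable (fun x => ‖x‖⁻¹ * v x ^ 4) := by
    intro v H hv
    have := integrable_mul' (p := 2) (q := 2) (memLp_pow3 hv.mem6) hv.memHardy
    refine this.congr (Eventually.of_forall fun x => ?_)
    simp only; ring
  have hm1 : MemLp (fun x => (u x - w x) * (4 * u x ^ 2 + 2 * w x ^ 2)) 2 volume :=
    mem_prod hu6 hw6 hd.mem6
  have hm2 : (eLpNorm (fun x => (u x - w x) * (4 * u x ^ 2 + 2 * w x ^ 2)) 2 volume).toReal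
      ≤ (eLpNorm (fun x => u x - w x) 6 volume).toReal * (6 * m ^ 2) :=
    norm_prod hu6 hw6 hd.mem6 hsn6
  have h4 : ∫ x, u x ^ 3 * (‖x‖⁻¹ * (u x - w x))
      ≤ (1 / 4) * ∫ x, (‖x‖⁻¹ * (u x - w x)) * ((u x - w x) * (4 * u x ^ 2 + 2 * w x ^ 2)) := by
    have i5 : Integrable (fun x => (‖x‖⁻¹ * (u x - w x))
        * ((u x - w x) * (4 * u x ^ 2 + 2 * w x ^ 2))) volume :=
      integrable_mul' (p := 2) (q := 2) hd.memHardy hm1
    have i6 : Integrable (fun x => u x ^ 3 * (‖x‖⁻¹ * (u x - w x))) volume :=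
      integrable_mul' (p := 2) (q := 2) (memLp_pow3 hu6) hd.memHardy
    have i7 : Integrable (fun x => ‖x‖⁻¹ * u x ^ 4 - ‖x‖⁻¹ * w x ^ 4) volume :=
      (i4 h).sub (i4 hwp)
    have e : (1 / 4 : ℝ) * ∫ x, (‖x‖⁻¹ * (u x - w x))
          * ((u x - w x) * (4 * u x ^ 2 + 2 * w x ^ 2))
        = ∫ x, ((1 / 4) * (‖x‖⁻¹ * u x ^ 4 - ‖x‖⁻¹ * w x ^ 4)
          + (1 / 4) * ((‖x‖⁻¹ * (u x - w x))
          * ((u x - w x) * (4 * u x ^ 2 + 2 * w x ^ 2)))) := by
      rw [integral_add (i7.const_mul (1 / 4)) (i5.const_mul (1 / 4)), integral_const_mul,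
        integral_const_mul, integral_sub (i4 h) (i4 hwp), hs4, sub_self, mul_zero, zero_add]
    rw [e]
    apply integral_mono_ae i6 ((i7.const_mul (1 / 4)).add (i5.const_mul (1 / 4)))
    refine Eventually.of_forall fun x => ?_
    have h8 := taylor4 (u x) (w x)
    have h9 : 0 ≤ ‖x‖⁻¹ := by positivity
    have h10 := mul_le_mul_of_nonneg_left h8 h9
    show u x ^ 3 * (‖x‖⁻¹ * (u x - w x)) ≤ (1 / 4) * (‖x‖⁻¹ * u x ^ 4 - ‖x‖⁻¹ * w x ^ 4)
          + (1 / 4) * ((‖x‖⁻¹ * (u x - w x))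
          * ((u x - w x) * (4 * u x ^ 2 + 2 * w x ^ 2)))
    nlinarith [h10]
  have h6 : ∫ x, (‖x‖⁻¹ * (u x - w x)) * ((u x - w x) * (4 * u x ^ 2 + 2 * w x ^ 2))
      ≤ (eLpNorm (fun x => ‖x‖⁻¹ * (u x - w x)) 2 volume).toReal
        * (eLpNorm (fun x => (u x - w x) * (4 * u x ^ 2 + 2 * w x ^ 2)) 2 volume).toReal :=
    (le_abs_self _).trans (holder_mul (p := 2) (q := 2) hd.memHardy hm1)
  -- Hardy norm of the difference is O(t-1)
  have h7 : (eLpNorm (fun x => ‖x‖⁻¹ * (u x - w x)) 2 volume).toReal ≤ 3 * (t - 1) * g :=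
    h.dil_hardy ha ht1 ht
  have h8 : (eLpNorm (fun x => u x - w x) 6 volume).toReal
      ≤ S * (eLpNorm (fun x => G x - W x) 2 volume).toReal := by
    have n1 := hS Ω _ _ hd
    have fG : eLpNorm (fun x => G x - W x) 2 volume ≠ ⊤ := hd.mG.2.ne
    have n2 := ENNReal.toReal_mono (by finiteness) n1
    rwa [ENNReal.toReal_mul, ENNReal.coe_toReal] at n2
  set D : ℝ := (eLpNorm (fun x => G x - W x) 2 volume).toReal with hD
  have hD2 : D ^ 2 = ∫ x, ‖G x - W x‖ ^ 2 := N2_sq hd.mG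
  have hD0 : 0 ≤ D := ENNReal.toReal_nonneg
  have hg0 : 0 ≤ g := ENNReal.toReal_nonneg
  have hm0 : 0 ≤ m := ENNReal.toReal_nonneg
  have hS0 : (0 : ℝ) ≤ S := S.2
  have h9 : ∫ x, (‖x‖⁻¹ * (u x - w x)) * ((u x - w x) * (4 * u x ^ 2 + 2 * w x ^ 2))
      ≤ (3 * (t - 1) * g) * ((S * D) * (6 * m ^ 2)) := by
    refine h6.trans (mul_le_mul h7 (hm2.trans ?_) ENNReal.toReal_nonneg
      (by have : 0 ≤ t - 1 := by linarith
          positivity))
    exact mul_le_mul_of_nonneg_right h8 (by positivity)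
  have h10 : (1 / 2) * D ^ 2 + (1 - a⁻¹) / 5 * (∫ x, u x ^ 5)
      ≤ ((9 / 2) * g * m ^ 2 * S) * (t - 1) * D := by
    have e1 : (1 / 2) * D ^ 2 = ∫ x, (inner ℝ (G x) (G x - W x) : ℝ) := by
      rw [hD2, hQ]; ring
    rw [e1]
    have e2 : ((9 / 2) * g * m ^ 2 * S) * (t - 1) * D
        = (1 / 4) * ((3 * (t - 1) * g) * ((S * D) * (6 * m ^ 2))) := by ring
    rw [e2]
    linarith
  set κ : ℝ := (9 / 2) * g * m ^ 2 * S with hκ
  have h11 : κ * (t - 1) * D ≤ (1 / 2) * D ^ 2 + (1 / 2) * (κ * (t - 1)) ^ 2 := by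
    nlinarith [sq_nonneg (D - κ * (t - 1))]
  have h12 : (1 - a⁻¹) / 5 * (∫ x, u x ^ 5) ≤ (1 / 2) * (κ * (t - 1)) ^ 2 := by linarith
  have h13 : 5 * κ ^ 2 / 2 * (t - 1) ^ 2 = 5 * ((1 / 2) * (κ * (t - 1)) ^ 2) := by ring
  rw [h13]
  linarith

/-- Nonexistence: the fifth power integral vanishes. -/
lemma nonexistence {Ω : Set E} {u : E → ℝ} {G : E → E} (h : IsPair Ω u G) (hw : Weak Ω u G)
    (h0 : ∀ᵐ x, 0 ≤ u x) (hΩ : ∀ t : ℝ, 1 ≤ t → ∀ x, t • x ∈ Ω → x ∈ Ω) :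
    ∀ᵐ x, u x = 0 := by
  obtain ⟨K, hK⟩ := main_ineq h hw h0 hΩ
  set C := ∫ x, u x ^ 5 with hC
  have hC0 : 0 ≤ C := integral_nonneg_of_ae (by
    filter_upwards [h0] with x hx
    exact pow_nonneg hx 5)
  have hle : ∀ ε : ℝ, 0 < ε → ε ≤ 1 → C ≤ 18 * |K| * ε := by
    intro ε hε hε1
    have h1 := hK (1 + ε) (by linarith)
    have h2 : (1 - (1 + ε)⁻¹) = ε / (1 + ε) := by field_simp; ring
    rw [h2] at h1
    have h3 : ((1 + ε) ^ 2 - 1) ^ 2 ≤ 9 * ε ^ 2 := by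
      have : ((1 + ε) ^ 2 - 1) = ε * (2 + ε) := by ring
      rw [this, mul_pow]
      have h9 : (2 + ε) ^ 2 ≤ 3 ^ 2 := pow_le_pow_left₀ (by linarith) (by linarith) 2
      nlinarith [mul_le_mul_of_nonneg_left h9 (sq_nonneg ε)]
    have h4 : K * ((1 + ε) ^ 2 - 1) ^ 2 ≤ |K| * (9 * ε ^ 2) :=
      mul_le_mul (le_abs_self K) h3 (sq_nonneg _) (abs_nonneg _)
    have h5 : ε / (1 + ε) * C ≤ |K| * (9 * ε ^ 2) := h1.trans h4
    have h6 : ε / 2 * C ≤ ε / (1 + ε) * C := by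
      apply mul_le_mul_of_nonneg_right _ hC0
      apply div_le_div_of_nonneg_left hε.le (by linarith) (by linarith)
    have h7 : ε * C ≤ ε * (18 * |K| * ε) := by nlinarith
    exact le_of_mul_le_mul_left h7 hε
  have hC1 : C ≤ 0 := by
    by_contra hcon
    push Not at hcon
    have h1 := hle (min 1 (C / (18 * |K| + 1) / 2)) (by positivity) (min_le_left _ _)
    have h2 : 18 * |K| * min 1 (C / (18 * |K| + 1) / 2) ≤ 18 * |K| * (C / (18 * |K| + 1) / 2) :=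
      mul_le_mul_of_nonneg_left (min_le_right _ _) (by positivity)
    have h3 : 18 * |K| * (C / (18 * |K| + 1) / 2) ≤ C / 2 := by
      have h4 : 0 ≤ |K| := abs_nonneg K
      have h5 : 18 * |K| * (C / (18 * |K| + 1) / 2)
          = (C / 2) * (18 * |K| / (18 * |K| + 1)) := by ring
      rw [h5]
      have h6 : 18 * |K| / (18 * |K| + 1) ≤ 1 := by
        rw [div_le_one (by positivity)]; linarith
      nlinarith
    linarith
  have hC2 : C = 0 := le_antisymm hC1 hC0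
  have h1 : 0 ≤ᵐ[volume] fun x => u x ^ 5 := by
    filter_upwards [h0] with x hx
    exact pow_nonneg hx 5
  have h2 := (integral_eq_zero_iff_of_nonneg_ae h1 (integrable_p5 h.mu h.mem6 h0)).1 hC2
  filter_upwards [h2] with x hx
  exact eq_zero_of_pow_eq_zero hx

end Pool.Agent.W801.Poho
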