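import Mathlib

set_option autoImplicit false
open MeasureTheory Filter Topology Set
open scoped ENNReal NNReal

namespace Pool.Agent.W801.Poho

/-- three-dimensional euclidean space -/
abbrev E := EuclideanSpace ℝ (Fin 3)

/-- smooth functions with compact support in `Ω` -/
def IsTest (Ω : Set E) (φ : E → ℝ) : Prop :=
  ContDiff ℝ ((⊤ : ℕ∞) : WithTop ℕ∞) φ ∧ HasCompactSupport φ ∧ tsupport φ ⊆ Ω

lemma finrankE : Module.finrank ℝ E = 3 := by simp

lemma norm_gradient (φ : E → ℝ) (x : E) : ‖gradient φ x‖ = ‖fderiv ℝ φ x‖ := by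
  simp [gradient]

lemma IsTest.diff {Ω : Set E} {φ : E → ℝ} (h : IsTest Ω φ) : Differentiable ℝ φ :=
  h.1.differentiable (by simp)

lemma IsTest.cont {Ω : Set E} {φ : E → ℝ} (h : IsTest Ω φ) : Continuous φ := h.1.continuous

lemma IsTest.cont_grad {Ω : Set E} {φ : E → ℝ} (h : IsTest Ω φ) : Continuous (gradient φ) := by
  have : Continuous (fderiv ℝ φ) := h.1.continuous_fderiv (by simp)
  exact (InnerProductSpace.toDual ℝ E).symm.continuous.comp this

lemma IsTest.supp_grad {Ω : Set E} {φ : E → ℝ} (h : IsTest Ω φ) :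
    HasCompactSupport (gradient φ) := by
  have h1 : HasCompactSupport (fderiv ℝ φ) := h.2.1.fderiv (𝕜 := ℝ)
  exact h1.comp_left (g := (InnerProductSpace.toDual ℝ E).symm) (map_zero _)

lemma IsTest.memLp {Ω : Set E} {φ : E → ℝ} (h : IsTest Ω φ) (p : ℝ≥0∞) : MemLp φ p volume :=
  h.cont.memLp_of_hasCompactSupport h.2.1

lemma IsTest.memLp_grad {Ω : Set E} {φ : E → ℝ} (h : IsTest Ω φ) (p : ℝ≥0∞) :
    MemLp (gradient φ) p volume :=
  h.cont_grad.memLp_of_hasCompactSupport h.supp_grad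

lemma IsTest.eq_zero {Ω : Set E} {φ : E → ℝ} (h : IsTest Ω φ) {x : E} (hx : x ∉ Ω) : φ x = 0 := by
  by_contra h0
  exact hx (h.2.2 (subset_tsupport _ h0))

lemma IsTest.sub {Ω : Set E} {φ ψ : E → ℝ} (h : IsTest Ω φ) (h' : IsTest Ω ψ) :
    IsTest Ω (fun x => φ x - ψ x) := by
  refine ⟨h.1.sub h'.1, ?_, ?_⟩
  · exact HasCompactSupport.sub h.2.1 h'.2.1
  · exact (tsupport_sub _ _).trans (union_subset h.2.2 h'.2.2)

lemma grad_sub {φ ψ : E → ℝ} (h : Differentiable ℝ φ) (h' : Differentiable ℝ ψ) (x : E) :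
    gradient (fun x => φ x - ψ x) x = gradient φ x - gradient ψ x := by
  have : fderiv ℝ (fun x => φ x - ψ x) x = fderiv ℝ φ x - fderiv ℝ ψ x :=
    fderiv_fun_sub (h x) (h' x)
  simp [gradient, this]

/-- Sobolev inequality -/
lemma sobolev : ∃ S : ℝ≥0, ∀ (Ω : Set E) (φ : E → ℝ), IsTest Ω φ →
    eLpNorm φ 6 volume ≤ S * eLpNorm (gradient φ) 2 volume := by
  refine ⟨eLpNormLESNormFDerivOfEqInnerConst (volume : Measure E) 2, fun Ω φ h => ?_⟩
  have h1 := eLpNorm_le_eLpNorm_fderiv_of_eq_inner (volume : Measure E) (u := φ)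
    (h.1.of_le (by exact_mod_cast le_top)) h.2.1 (p := 2) (p' := 6) (by norm_num) (by simp)
    (by rw [finrankE]; norm_num)
  have h2 : eLpNorm (gradient φ) 2 (volume : Measure E) = eLpNorm (fderiv ℝ φ) 2 volume :=
    eLpNorm_congr_norm_ae (Eventually.of_forall fun x => norm_gradient φ x)
  rw [h2]
  exact_mod_cast h1

lemma measEmb {t : ℝ} (ht : 0 < t) : MeasurableEmbedding (fun x : E => t • x) :=
  (Homeomorph.smulOfNeZero t ht.ne').measurableEmbedding

lemma map_dil {t : ℝ} (ht : 0 < t) :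
    Measure.map (fun x : E => t • x) volume = ENNReal.ofReal (t ^ 3)⁻¹ • volume := by
  rw [Measure.map_addHaar_smul _ ht.ne', finrankE, abs_of_pos (by positivity)]

lemma lintegral_dil (f : E → ℝ≥0∞) {t : ℝ} (ht : 0 < t) :
    ∫⁻ x, f (t • x) = ENNReal.ofReal (t ^ 3)⁻¹ * ∫⁻ x, f x := by
  rw [← (measEmb ht).lintegral_map, map_dil ht, lintegral_smul_measure, smul_eq_mul]

lemma eLpNorm_dil {F : Type*} [NormedAddCommGroup F] (f : E → F) (p : ℝ≥0∞) {t : ℝ} (ht : 0 < t) :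
    eLpNorm (fun x => f (t • x)) p volume
      = (ENNReal.ofReal (t ^ 3)⁻¹) ^ (1 / p).toReal * eLpNorm f p volume := by
  have h1 : eLpNorm f p (Measure.map (fun x : E => t • x) volume)
      = eLpNorm (f ∘ fun x : E => t • x) p volume :=
    (measEmb ht).eLpNorm_map_measure
  have h2 : (ENNReal.ofReal (t ^ 3)⁻¹) ≠ 0 := by
    simp only [ne_eq, ENNReal.ofReal_eq_zero, not_le]; positivity
  rw [map_dil ht, eLpNorm_smul_measure_of_ne_zero h2, smul_eq_mul] at h1
  exact h1.symm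

lemma ae_dil {P : E → Prop} (h : ∀ᵐ x, P x) {t : ℝ} (ht : 0 < t) : ∀ᵐ x : E, P (t • x) :=
  (Measure.quasiMeasurePreserving_smul (volume : Measure E) ht.ne').ae h

lemma memLp_dil {F : Type*} [NormedAddCommGroup F] {f : E → F} {p : ℝ≥0∞} (hf : MemLp f p volume)
    {t : ℝ} (ht : 0 < t) : MemLp (fun x => f (t • x)) p volume := by
  refine ⟨hf.1.comp_quasiMeasurePreserving
    (Measure.quasiMeasurePreserving_smul (volume : Measure E) ht.ne'), ?_⟩
  rw [eLpNorm_dil f p ht]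
  exact ENNReal.mul_lt_top (ENNReal.rpow_lt_top_of_nonneg ENNReal.toReal_nonneg
    ENNReal.ofReal_ne_top) hf.2

/-- Cauchy-Schwarz on an interval -/
lemma cs_interval {g : ℝ → ℝ} (hg : Continuous g) {t : ℝ} (ht : 1 ≤ t) :
    (∫ τ in (1 : ℝ)..t, g τ) ^ 2 ≤ (t - 1) * ∫ τ in (1 : ℝ)..t, g τ ^ 2 := by
  rcases ht.eq_or_lt with h | h
  · rw [← h]; simp
  set m : ℝ := (∫ τ in (1 : ℝ)..t, g τ) / (t - 1) with hm
  have h1 : 0 ≤ ∫ τ in (1 : ℝ)..t, (g τ - m) ^ 2 :=
    intervalIntegral.integral_nonneg ht (fun _ _ => sq_nonneg _)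
  have h2 : ∫ τ in (1 : ℝ)..t, (g τ - m) ^ 2
      = (∫ τ in (1 : ℝ)..t, g τ ^ 2) - 2 * m * (∫ τ in (1 : ℝ)..t, g τ) + m ^ 2 * (t - 1) := by
    have : ∀ τ, (g τ - m) ^ 2 = (g τ ^ 2 - 2 * m * g τ) + m ^ 2 := fun τ => by ring
    simp_rw [this]
    rw [intervalIntegral.integral_add, intervalIntegral.integral_sub,
      intervalIntegral.integral_const_mul, intervalIntegral.integral_const]
    · simp; ring
    · exact (hg.pow 2).intervalIntegrable _ _
    · exact (continuous_const.mul hg).intervalIntegrable _ _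
    · exact ((hg.pow 2).sub (continuous_const.mul hg)).intervalIntegrable _ _
    · exact continuous_const.intervalIntegrable _ _
  have h3 : (t - 1) ≠ 0 := by linarith
  have h4 : m * (t - 1) = ∫ τ in (1 : ℝ)..t, g τ := by rw [hm]; field_simp
  rw [h2] at h1
  have h5 : 0 < t - 1 := by linarith
  nlinarith [mul_nonneg h5.le h1]

/-- pointwise bound of a dilation difference -/
lemma dil_pointwise {Ω : Set E} {φ : E → ℝ} (h : IsTest Ω φ) {t : ℝ} (ht : 1 ≤ t) (x : E) :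
    (‖x‖⁻¹ * (φ (t • x) - φ x)) ^ 2
      ≤ (t - 1) * ∫ τ in (1 : ℝ)..t, ‖gradient φ (τ • x)‖ ^ 2 := by
  have hg : Continuous fun τ : ℝ => ‖gradient φ (τ • x)‖ :=
    (h.cont_grad.comp (continuous_id.smul continuous_const)).norm
  have h1 : φ (t • x) - φ x = ∫ τ in (1 : ℝ)..t, fderiv ℝ φ (τ • x) x := by
    have hd : ∀ τ ∈ Set.uIcc (1 : ℝ) t, HasDerivAt (fun τ : ℝ => φ (τ • x))
        (fderiv ℝ φ (τ • x) x) τ := by
      intro τ _
      have h2 : HasDerivAt (fun τ : ℝ => τ • x) x τ := by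
        simpa using (hasDerivAt_id τ).smul_const x
      exact (h.diff (τ • x)).hasFDerivAt.comp_hasDerivAt τ h2
    have hc : Continuous (fun τ : ℝ => fderiv ℝ φ (τ • x) x) := by
      have h3 : Continuous (fderiv ℝ φ) := h.1.continuous_fderiv (by simp)
      exact (h3.comp (continuous_id.smul continuous_const)).clm_apply continuous_const
    rw [intervalIntegral.integral_eq_sub_of_hasDerivAt hd (hc.intervalIntegrable _ _)]
    simp
  have h2 : |φ (t • x) - φ x| ≤ ‖x‖ * ∫ τ in (1 : ℝ)..t, ‖gradient φ (τ • x)‖ := by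
    rw [h1, ← intervalIntegral.integral_const_mul]
    have := intervalIntegral.norm_integral_le_of_norm_le (a := 1) (b := t) (μ := volume)
      (f := fun τ => fderiv ℝ φ (τ • x) x) (g := fun τ => ‖x‖ * ‖gradient φ (τ • x)‖) ht
      (Eventually.of_forall fun τ _ => by
        rw [norm_gradient, mul_comm]
        exact (fderiv ℝ φ (τ • x)).le_opNorm x)
      ((continuous_const.mul hg).intervalIntegrable _ _)
    exact this
  have h3 : |‖x‖⁻¹ * (φ (t • x) - φ x)| ≤ ∫ τ in (1 : ℝ)..t, ‖gradient φ (τ • x)‖ := by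
    have h0 : 0 ≤ ∫ τ in (1 : ℝ)..t, ‖gradient φ (τ • x)‖ :=
      intervalIntegral.integral_nonneg ht (fun _ _ => norm_nonneg _)
    rw [abs_mul, abs_of_nonneg (inv_nonneg.2 (norm_nonneg x))]
    rcases eq_or_ne x 0 with hx | hx
    · simp [hx] at h0 ⊢; simpa using h0
    · have hx' : 0 < ‖x‖ := norm_pos_iff.2 hx
      rw [inv_mul_le_iff₀ hx']
      exact h2
  calc (‖x‖⁻¹ * (φ (t • x) - φ x)) ^ 2 = |‖x‖⁻¹ * (φ (t • x) - φ x)| ^ 2 := (sq_abs _).symm
    _ ≤ (∫ τ in (1 : ℝ)..t, ‖gradient φ (τ • x)‖) ^ 2 := by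
        apply pow_le_pow_left₀ (abs_nonneg _) h3
    _ ≤ _ := cs_interval hg ht

end Pool.Agent.W801.Poho
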