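import Pool.Agent.W801.Poho1

set_option autoImplicit false
open MeasureTheory Filter Topology Set
open scoped ENNReal NNReal

namespace Pool.Agent.W801.Poho

lemma sq_eLpNorm {F : Type*} [NormedAddCommGroup F] (f : E → F) :
    eLpNorm f 2 volume ^ 2 = ∫⁻ x, ‖f x‖ₑ ^ 2 := by
  have h := eLpNorm_nnreal_pow_eq_lintegral (p := 2) (f := f) (μ := (volume : Measure E))
    (by norm_num)
  simpa using h

/-- L² bound for a dilation difference -/
lemma dil_diff {Ω : Set E} {φ : E → ℝ} (h : IsTest Ω φ) {t : ℝ} (ht : 1 ≤ t) :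
    eLpNorm (fun x => ‖x‖⁻¹ * (φ (t • x) - φ x)) 2 volume
      ≤ ENNReal.ofReal (t - 1) * eLpNorm (gradient φ) 2 volume := by
  have h5 : (0 : ℝ) ≤ t - 1 := by linarith
  rw [← ENNReal.pow_le_pow_left_iff (n := 2) (by norm_num), mul_pow, sq_eLpNorm, sq_eLpNorm]
  have hgc : Measurable fun z : E × ℝ => ‖gradient φ (z.2 • z.1)‖ₑ ^ 2 := by
    have : Continuous fun z : E × ℝ => gradient φ (z.2 • z.1) :=
      h.cont_grad.comp (continuous_snd.smul continuous_fst)
    exact this.measurable.enorm.pow_const 2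
  calc ∫⁻ x : E, ‖‖x‖⁻¹ * (φ (t • x) - φ x)‖ₑ ^ 2
      ≤ ∫⁻ x : E, ENNReal.ofReal (t - 1) * ∫⁻ τ in Ioc (1 : ℝ) t, ‖gradient φ (τ • x)‖ₑ ^ 2 := by
        apply lintegral_mono
        intro x
        have h1 := dil_pointwise h ht x
        have h2 : ‖‖x‖⁻¹ * (φ (t • x) - φ x)‖ₑ ^ 2
            = ENNReal.ofReal ((‖x‖⁻¹ * (φ (t • x) - φ x)) ^ 2) := by
          rw [Real.enorm_eq_ofReal_abs, ← ENNReal.ofReal_pow (abs_nonneg _), sq_abs]
        have hg : Continuous fun τ : ℝ => ‖gradient φ (τ • x)‖ ^ 2 :=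
          (h.cont_grad.comp (continuous_id.smul continuous_const)).norm.pow 2
        have h3 : ENNReal.ofReal (∫ τ in (1 : ℝ)..t, ‖gradient φ (τ • x)‖ ^ 2)
            = ∫⁻ τ in Ioc (1 : ℝ) t, ‖gradient φ (τ • x)‖ₑ ^ 2 := by
          rw [intervalIntegral.integral_of_le ht, ofReal_integral_eq_lintegral_ofReal]
          · apply lintegral_congr
            intro τ
            rw [ENNReal.ofReal_pow (norm_nonneg _), ofReal_norm]
          · exact (hg.integrableOn_Icc (a := 1) (b := t)).mono_set Ioc_subset_Icc_self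
          · exact Eventually.of_forall fun _ => by positivity
        show ‖‖x‖⁻¹ * (φ (t • x) - φ x)‖ₑ ^ 2
          ≤ ENNReal.ofReal (t - 1) * ∫⁻ τ in Ioc (1 : ℝ) t, ‖gradient φ (τ • x)‖ₑ ^ 2
        rw [h2, ← h3, ← ENNReal.ofReal_mul h5]
        exact ENNReal.ofReal_le_ofReal h1
    _ = ENNReal.ofReal (t - 1) * ∫⁻ τ in Ioc (1 : ℝ) t, ∫⁻ x : E, ‖gradient φ (τ • x)‖ₑ ^ 2 := by
        rw [lintegral_const_mul' _ _ ENNReal.ofReal_ne_top, lintegral_lintegral_swap]
        exact hgc.aemeasurable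
    _ ≤ ENNReal.ofReal (t - 1) * ∫⁻ τ in Ioc (1 : ℝ) t, ∫⁻ x : E, ‖gradient φ x‖ₑ ^ 2 := by
        apply mul_le_mul_right
        apply setLIntegral_mono' measurableSet_Ioc
        intro τ hτ
        have hτ0 : 0 < τ := by linarith [hτ.1]
        rw [lintegral_dil (fun x => ‖gradient φ x‖ₑ ^ 2) hτ0]
        have : ENNReal.ofReal (τ ^ 3)⁻¹ ≤ 1 := by
          rw [ENNReal.ofReal_le_one]
          exact inv_le_one_of_one_le₀ (one_le_pow₀ hτ.1.le)
        calc _ ≤ 1 * ∫⁻ x : E, ‖gradient φ x‖ₑ ^ 2 := by gcongr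
          _ = _ := one_mul _
    _ = ENNReal.ofReal (t - 1) ^ 2 * ∫⁻ x : E, ‖gradient φ x‖ₑ ^ 2 := by
        rw [lintegral_const]
        simp only [MeasurableSet.univ, Measure.restrict_apply, univ_inter, Real.volume_Ioc]
        ring

lemma enorm_inv_norm (x : E) : ‖(‖x‖⁻¹ : ℝ)‖ₑ = ENNReal.ofReal ‖x‖⁻¹ := by
  rw [Real.enorm_eq_ofReal (inv_nonneg.2 (norm_nonneg _))]

/-- a priori finiteness -/
lemma hardy_finite {Ω : Set E} {φ : E → ℝ} (h : IsTest Ω φ) :
    eLpNorm (fun x => ‖x‖⁻¹ * φ x) 2 volume ≠ ⊤ := by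
  obtain ⟨M, hM⟩ : ∃ M : ℝ, ∀ x, ‖φ x‖ ≤ M := by
    obtain ⟨M, hM⟩ := h.cont.bounded_above_of_compact_support h.2.1
    exact ⟨M, hM⟩
  obtain ⟨R, hR0, hR⟩ : ∃ R : ℝ, 0 < R ∧ tsupport φ ⊆ Metric.closedBall 0 R := by
    obtain ⟨R, hR⟩ := h.2.1.isCompact.isBounded.subset_closedBall (0 : E)
    exact ⟨max R 1, by positivity, hR.trans (Metric.closedBall_subset_closedBall (le_max_left _ _))⟩
  have hint : Integrable (fun x : E => (Iic R).indicator (fun r : ℝ => (r ^ 2)⁻¹) ‖x‖) volume := by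
    rw [integrable_fun_norm_addHaar, finrankE]
    have : ∀ y ∈ Ioi (0 : ℝ), y ^ (3 - 1) • (Iic R).indicator (fun r : ℝ => (r ^ 2)⁻¹) y
        = (Iic R).indicator (fun _ => (1 : ℝ)) y := by
      intro y hy
      by_cases hyR : y ∈ Iic R
      · rw [indicator_of_mem hyR, indicator_of_mem hyR]
        have : (y : ℝ) ≠ 0 := (ne_of_gt hy)
        simp only [smul_eq_mul]
        field_simp
      · rw [indicator_of_notMem hyR, indicator_of_notMem hyR, smul_zero]
    rw [integrableOn_congr_fun this measurableSet_Ioi, IntegrableOn,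
      integrable_indicator_iff measurableSet_Iic, IntegrableOn, Measure.restrict_restrict
        measurableSet_Iic]
    have : Iic R ∩ Ioi 0 = Ioc 0 R := by ext; simp [and_comm]
    rw [this]
    exact integrable_const _
  have hle : ∀ x : E, ‖(‖x‖⁻¹ * φ x) ^ 2‖
      ≤ M ^ 2 * (Iic R).indicator (fun r : ℝ => (r ^ 2)⁻¹) ‖x‖ := by
    intro x
    by_cases hx : x ∈ tsupport φ
    · have hx2 : ‖x‖ ∈ Iic R := by simpa using hR hx
      rw [indicator_of_mem hx2, Real.norm_of_nonneg (sq_nonneg _), mul_pow, inv_pow, mul_comm]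
      have := hM x
      rw [Real.norm_eq_abs] at this
      have h9 : φ x ^ 2 ≤ M ^ 2 := by
        rw [← sq_abs]
        exact pow_le_pow_left₀ (abs_nonneg _) this 2
      exact mul_le_mul_of_nonneg_right h9 (by positivity)
    · have : φ x = 0 := image_eq_zero_of_notMem_tsupport hx
      rw [this]
      simp only [mul_zero, ne_eq, OfNat.ofNat_ne_zero, not_false_eq_true, zero_pow, norm_zero]
      apply mul_nonneg (sq_nonneg _)
      apply indicator_nonneg
      intro r _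
      positivity
  have hi2 : Integrable (fun x : E => (‖x‖⁻¹ * φ x) ^ 2) volume := by
    apply Integrable.mono' (hint.const_mul (M ^ 2)) _ (Eventually.of_forall hle)
    exact ((measurable_norm.inv.mul h.cont.measurable).pow_const 2).aestronglyMeasurable
  have hm : AEStronglyMeasurable (fun x : E => ‖x‖⁻¹ * φ x) volume :=
    (measurable_norm.inv.mul h.cont.measurable).aestronglyMeasurable
  exact ((memLp_two_iff_integrable_sq hm).2 hi2).2.ne

/-- Hardy inequality -/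
lemma hardy {Ω : Set E} {φ : E → ℝ} (h : IsTest Ω φ) :
    eLpNorm (fun x => ‖x‖⁻¹ * φ x) 2 volume ≤ 4 * eLpNorm (gradient φ) 2 volume := by
  set A := eLpNorm (fun x => ‖x‖⁻¹ * φ x) 2 volume with hA
  set B := eLpNorm (gradient φ) 2 volume with hB
  have hAf : A ≠ ⊤ := hardy_finite h
  have hBf : B ≠ ⊤ := (h.memLp_grad 2).2.ne
  have hm : Measurable (fun x : E => ‖x‖⁻¹ * φ x) := measurable_norm.inv.mul h.cont.measurable
  have hm2 : Measurable (fun x : E => ‖x‖⁻¹ * (φ ((2 : ℝ) • x) - φ x)) := by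
    have : Continuous fun x : E => φ ((2 : ℝ) • x) := h.cont.comp (continuous_const_smul _)
    exact measurable_norm.inv.mul (this.measurable.sub h.cont.measurable)
  have h1 := dil_diff h (t := 2) (by norm_num)
  have h1' : eLpNorm (fun x => ‖x‖⁻¹ * (φ ((2 : ℝ) • x) - φ x)) 2 volume ≤ B := by
    refine h1.trans ?_
    norm_num
    exact le_rfl
  have h2 : eLpNorm (fun x : E => ‖x‖⁻¹ * φ ((2 : ℝ) • x)) 2 volume ≤ ENNReal.ofReal (3 / 4) * A := by
    have e : (fun x : E => ‖x‖⁻¹ * φ ((2 : ℝ) • x))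
        = (fun x : E => (2 : ℝ) • (fun y : E => ‖y‖⁻¹ * φ y) ((2 : ℝ) • x)) := by
      funext x
      simp only [norm_smul, Real.norm_ofNat, mul_inv, smul_eq_mul]
      ring
    rw [e]
    have e2 := eLpNorm_const_smul (2 : ℝ) (fun x : E => (fun y : E => ‖y‖⁻¹ * φ y) ((2 : ℝ) • x)) 2
      (volume : Measure E)
    have e3 : eLpNorm (fun x : E => (2 : ℝ) • (fun y : E => ‖y‖⁻¹ * φ y) ((2 : ℝ) • x)) 2 volume
        = ‖(2 : ℝ)‖ₑ * eLpNorm (fun x : E => (fun y : E => ‖y‖⁻¹ * φ y) ((2 : ℝ) • x)) 2 volume := e2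
    rw [e3, eLpNorm_dil (fun y : E => ‖y‖⁻¹ * φ y) 2 (t := 2) (by norm_num), ← mul_assoc]
    gcongr
    have e4 : (1 / (2 : ℝ≥0∞)).toReal = 1 / 2 := by simp
    rw [e4, Real.enorm_eq_ofReal (by norm_num), ENNReal.ofReal_rpow_of_nonneg (by positivity)
      (by norm_num), ← ENNReal.ofReal_mul (by norm_num)]
    apply ENNReal.ofReal_le_ofReal
    rw [← Real.sqrt_eq_rpow]
    have : Real.sqrt ((2 : ℝ) ^ 3)⁻¹ ≤ 3 / 8 := by
      rw [Real.sqrt_le_left (by norm_num)]
      norm_num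
    linarith
  have h3 : A ≤ B + ENNReal.ofReal (3 / 4) * A := by
    have e : (fun x : E => ‖x‖⁻¹ * φ x) = (fun x : E => ‖x‖⁻¹ * φ ((2 : ℝ) • x))
        - (fun x : E => ‖x‖⁻¹ * (φ ((2 : ℝ) • x) - φ x)) := by
      funext x
      simp only [Pi.sub_apply]
      ring
    have hm3 : Measurable (fun x : E => ‖x‖⁻¹ * φ ((2 : ℝ) • x)) := by
      have : Continuous fun x : E => φ ((2 : ℝ) • x) := h.cont.comp (continuous_const_smul _)
      exact measurable_norm.inv.mul this.measurable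
    calc A = eLpNorm ((fun x : E => ‖x‖⁻¹ * φ ((2 : ℝ) • x))
        - (fun x : E => ‖x‖⁻¹ * (φ ((2 : ℝ) • x) - φ x))) 2 volume := by rw [← e]
      _ ≤ eLpNorm (fun x : E => ‖x‖⁻¹ * φ ((2 : ℝ) • x)) 2 volume
        + eLpNorm (fun x : E => ‖x‖⁻¹ * (φ ((2 : ℝ) • x) - φ x)) 2 volume :=
          eLpNorm_sub_le hm3.aestronglyMeasurable hm2.aestronglyMeasurable (by norm_num)
      _ ≤ _ := by rw [add_comm]; gcongr
  lift A to ℝ≥0 using hAf with a
  lift B to ℝ≥0 using hBf with b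
  have h4 : (a : ℝ) ≤ b + 3 / 4 * a := by
    have : ENNReal.ofReal (3 / 4) = ((3 / 4 : ℝ≥0) : ℝ≥0∞) := by
      rw [ENNReal.ofReal]
      congr 1
      rw [← NNReal.coe_inj, Real.coe_toNNReal _ (by norm_num)]
      norm_num
    rw [this] at h3
    have h5 : a ≤ b + 3 / 4 * a := by exact_mod_cast h3
    have h6 := NNReal.coe_le_coe.2 h5
    push_cast at h6
    exact h6
  have h5 : (a : ℝ) ≤ 4 * b := by linarith
  have h6 : a ≤ 4 * b := by exact_mod_cast h5
  exact_mod_cast h6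

end Pool.Agent.W801.Poho
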