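import Pool.Agent.W801.Poho2

set_option autoImplicit false
open MeasureTheory Filter Topology Set
open scoped ENNReal NNReal

namespace Pool.Agent.W801.Poho

/-- `u` is in `H^1_0 (Ω)` with gradient `G` -/
structure IsPair (Ω : Set E) (u : E → ℝ) (G : E → E) : Prop where
  mu : MemLp u 2 volume
  mG : MemLp G 2 volume
  approx : ∃ φ : ℕ → E → ℝ, (∀ n, IsTest Ω (φ n)) ∧
    Tendsto (fun n => eLpNorm (fun x => φ n x - u x) 2 volume) atTop (𝓝 0) ∧
    Tendsto (fun n => eLpNorm (fun x => gradient (φ n) x - G x) 2 volume) atTop (𝓝 0)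

lemma IsTest.isPair {Ω : Set E} {φ : E → ℝ} (h : IsTest Ω φ) : IsPair Ω φ (gradient φ) :=
  ⟨h.memLp 2, h.memLp_grad 2, fun _ => φ, fun _ => h, by simp, by simp⟩

lemma IsPair.sub {Ω : Set E} {u v : E → ℝ} {G H : E → E} (h : IsPair Ω u G) (h' : IsPair Ω v H) :
    IsPair Ω (fun x => u x - v x) (fun x => G x - H x) := by
  obtain ⟨φ, h1, h2, h3⟩ := h.approx
  obtain ⟨ψ, k1, k2, k3⟩ := h'.approx
  refine ⟨h.mu.sub h'.mu, h.mG.sub h'.mG, fun n x => φ n x - ψ n x, fun n => (h1 n).sub (k1 n),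
    ?_, ?_⟩
  · have h4 := h2.add k2
    rw [add_zero] at h4
    refine tendsto_of_tendsto_of_tendsto_of_le_of_le tendsto_const_nhds h4 (fun _ => zero_le) ?_
    intro n
    have e : (fun x => φ n x - ψ n x - (u x - v x))
        = (fun x => φ n x - u x) - (fun x => ψ n x - v x) := by
      funext x; simp only [Pi.sub_apply]; ring
    show eLpNorm (fun x => φ n x - ψ n x - (u x - v x)) 2 volume ≤ _
    rw [e]
    exact eLpNorm_sub_le (((h1 n).memLp 2).sub h.mu).1 (((k1 n).memLp 2).sub h'.mu).1 (by norm_num)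
  · have h4 := h3.add k3
    rw [add_zero] at h4
    refine tendsto_of_tendsto_of_tendsto_of_le_of_le tendsto_const_nhds h4 (fun _ => zero_le) ?_
    intro n
    have e : (fun x => gradient (fun x => φ n x - ψ n x) x - (G x - H x))
        = (fun x => gradient (φ n) x - G x) - (fun x => gradient (ψ n) x - H x) := by
      funext x
      simp only [Pi.sub_apply]
      rw [grad_sub (h1 n).diff (k1 n).diff]
      abel
    show eLpNorm (fun x => gradient (fun x => φ n x - ψ n x) x - (G x - H x)) 2 volume ≤ _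
    rw [e]
    exact eLpNorm_sub_le (((h1 n).memLp_grad 2).sub h.mG).1 (((k1 n).memLp_grad 2).sub h'.mG).1
      (by norm_num)

lemma IsPair.ae_seq {Ω : Set E} {u : E → ℝ} {G : E → E} (h : IsPair Ω u G) :
    ∃ φ : ℕ → E → ℝ, (∀ n, IsTest Ω (φ n)) ∧
    Tendsto (fun n => eLpNorm (fun x => φ n x - u x) 2 volume) atTop (𝓝 0) ∧
    Tendsto (fun n => eLpNorm (fun x => gradient (φ n) x - G x) 2 volume) atTop (𝓝 0) ∧
    ∀ᵐ x, Tendsto (fun n => φ n x) atTop (𝓝 (u x)) := by
  obtain ⟨φ, h1, h2, h3⟩ := h.approx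
  have h4 : TendstoInMeasure volume φ atTop u :=
    tendstoInMeasure_of_tendsto_eLpNorm (p := 2) (by norm_num) (fun n => ((h1 n).memLp 2).1)
      h.mu.1 h2
  obtain ⟨ns, h5, h6⟩ := h4.exists_seq_tendsto_ae
  exact ⟨fun n => φ (ns n), fun n => h1 _, h2.comp h5.tendsto_atTop, h3.comp h5.tendsto_atTop, h6⟩

lemma IsPair.ae_zero {Ω : Set E} {u : E → ℝ} {G : E → E} (h : IsPair Ω u G) :
    ∀ᵐ x, x ∉ Ω → u x = 0 := by
  obtain ⟨φ, h1, h2, h3, h4⟩ := h.ae_seq
  filter_upwards [h4] with x hx hx'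
  have : ∀ n, φ n x = 0 := fun n => (h1 n).eq_zero hx'
  simp_rw [this] at hx
  exact (tendsto_nhds_unique tendsto_const_nhds hx).symm

/-- gradients of the approximating functions converge in norm -/
lemma tendsto_norm_grad {Ω : Set E} {G : E → E} (hG : MemLp G 2 volume) {φ : ℕ → E → ℝ}
    (h1 : ∀ n, IsTest Ω (φ n))
    (h3 : Tendsto (fun n => eLpNorm (fun x => gradient (φ n) x - G x) 2 volume) atTop (𝓝 0)) :
    Tendsto (fun n => eLpNorm (gradient (φ n)) 2 volume) atTop (𝓝 (eLpNorm G 2 volume)) := by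
  have h5 : ∀ n, eLpNorm (gradient (φ n)) 2 volume
      ≤ eLpNorm (fun x => gradient (φ n) x - G x) 2 volume + eLpNorm G 2 volume := by
    intro n
    have e : gradient (φ n) = (fun x => gradient (φ n) x - G x) + G := by
      funext x; simp
    calc eLpNorm (gradient (φ n)) 2 volume
        = eLpNorm ((fun x => gradient (φ n) x - G x) + G) 2 volume := by rw [← e]
      _ ≤ _ := eLpNorm_add_le (((h1 n).memLp_grad 2).sub hG).1 hG.1 (by norm_num)
  have h6 : ∀ n, eLpNorm G 2 volume ≤ eLpNorm (fun x => gradient (φ n) x - G x) 2 volume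
      + eLpNorm (gradient (φ n)) 2 volume := by
    intro n
    have e : G = gradient (φ n) - (fun x => gradient (φ n) x - G x) := by
      funext x; simp
    calc eLpNorm G 2 volume
        = eLpNorm (gradient (φ n) - (fun x => gradient (φ n) x - G x)) 2 volume := by rw [← e]
      _ ≤ eLpNorm (gradient (φ n)) 2 volume
          + eLpNorm (fun x => gradient (φ n) x - G x) 2 volume :=
        eLpNorm_sub_le ((h1 n).memLp_grad 2).1 (((h1 n).memLp_grad 2).sub hG).1 (by norm_num)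
      _ = _ := add_comm _ _
  rw [ENNReal.tendsto_nhds hG.2.ne]
  intro ε hε
  filter_upwards [(ENNReal.tendsto_nhds_zero.1 h3) ε hε] with n hn
  constructor
  · rw [tsub_le_iff_left]
    exact (h6 n).trans (by gcongr)
  · exact (h5 n).trans (by rw [add_comm]; gcongr)

/-- Passing to the limit in an estimate by the gradient -/
lemma IsPair.bound {Ω : Set E} {u : E → ℝ} {G : E → E} (h : IsPair Ω u G) (p : ℝ≥0∞) (C : ℝ≥0)
    (T : (E → ℝ) → E → ℝ)
    (hT1 : ∀ φ, IsTest Ω φ → AEStronglyMeasurable (T φ) volume)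
    (hT2 : ∀ φ, IsTest Ω φ → eLpNorm (T φ) p volume ≤ C * eLpNorm (gradient φ) 2 volume)
    (hT3 : ∀ (φ : ℕ → E → ℝ), (∀ᵐ x, Tendsto (fun n => φ n x) atTop (𝓝 (u x))) →
      ∀ᵐ x, Tendsto (fun n => T (φ n) x) atTop (𝓝 (T u x))) :
    eLpNorm (T u) p volume ≤ C * eLpNorm G 2 volume := by
  obtain ⟨φ, h1, h2, h3, h4⟩ := h.ae_seq
  have h5 := Lp.eLpNorm_lim_le_liminf_eLpNorm (p := p) (μ := (volume : Measure E))
    (fun n => hT1 _ (h1 n)) (T u) (hT3 φ h4)
  refine h5.trans ?_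
  have h6 : Tendsto (fun n => (C : ℝ≥0∞) * eLpNorm (gradient (φ n)) 2 volume) atTop
      (𝓝 ((C : ℝ≥0∞) * eLpNorm G 2 volume)) :=
    ENNReal.Tendsto.const_mul (tendsto_norm_grad h.mG h1 h3) (Or.inr ENNReal.coe_ne_top)
  rw [← h6.liminf_eq]
  exact liminf_le_liminf (Eventually.of_forall fun n => hT2 _ (h1 n))

lemma IsPair.hardy {Ω : Set E} {u : E → ℝ} {G : E → E} (h : IsPair Ω u G) :
    eLpNorm (fun x => ‖x‖⁻¹ * u x) 2 volume ≤ 4 * eLpNorm G 2 volume := by
  have := h.bound 2 4 (fun φ x => ‖x‖⁻¹ * φ x)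
    (fun φ hφ => (measurable_norm.inv.mul hφ.cont.measurable).aestronglyMeasurable)
    (fun φ hφ => by simpa using Poho.hardy hφ)
    (fun φ hφ => by filter_upwards [hφ] with x hx using hx.const_mul _)
  simpa using this

lemma IsPair.dil_diff {Ω : Set E} {u : E → ℝ} {G : E → E} (h : IsPair Ω u G) {t : ℝ} (ht : 1 ≤ t) :
    eLpNorm (fun x => ‖x‖⁻¹ * (u (t • x) - u x)) 2 volume
      ≤ ENNReal.ofReal (t - 1) * eLpNorm G 2 volume := by
  refine h.bound 2 (Real.toNNReal (t - 1)) (fun φ x => ‖x‖⁻¹ * (φ (t • x) - φ x)) ?_ ?_ ?_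
  · intro φ hφ
    have : Continuous fun x : E => φ (t • x) := hφ.cont.comp (continuous_const_smul _)
    exact (measurable_norm.inv.mul (this.measurable.sub hφ.cont.measurable)).aestronglyMeasurable
  · intro φ hφ
    exact Poho.dil_diff hφ ht
  · intro φ hφ
    have h1 := ae_dil hφ (t := t) (by linarith)
    filter_upwards [hφ, h1] with x hx hx' using (hx'.sub hx).const_mul _

lemma sobolev_pair : ∃ S : ℝ≥0, ∀ (Ω : Set E) (u : E → ℝ) (G : E → E), IsPair Ω u G →
    eLpNorm u 6 volume ≤ S * eLpNorm G 2 volume := by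
  obtain ⟨S, hS⟩ := sobolev
  refine ⟨S, fun Ω u G h => h.bound 6 S (fun φ => φ) (fun φ hφ => (hφ.memLp 2).1)
    (fun φ hφ => hS Ω φ hφ) (fun φ hφ => hφ)⟩

lemma grad_dil {φ : E → ℝ} (h : Differentiable ℝ φ) (a t : ℝ) (x : E) :
    gradient (fun x => a * φ (t • x)) x = (a * t) • gradient φ (t • x) := by
  have h1 : HasFDerivAt (fun x : E => t • x) (t • ContinuousLinearMap.id ℝ E) x :=
    (hasFDerivAt_id x).const_smul t
  have h2 : HasFDerivAt (fun x => φ (t • x))
      ((fderiv ℝ φ (t • x)).comp (t • ContinuousLinearMap.id ℝ E)) x :=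
    (h (t • x)).hasFDerivAt.comp x h1
  have h3 : fderiv ℝ (fun x => a * φ (t • x)) x = (a * t) • fderiv ℝ φ (t • x) := by
    rw [(h2.const_mul a).fderiv]
    ext v
    simp
    ring
  simp only [gradient, h3]
  exact map_smul (InnerProductSpace.toDual ℝ E).symm.toLinearEquiv.toLinearMap _ _

lemma IsTest.dil {Ω : Set E} {φ : E → ℝ} (h : IsTest Ω φ) (a : ℝ) {t : ℝ} (ht : 0 < t)
    (hΩ : ∀ x, t • x ∈ Ω → x ∈ Ω) : IsTest Ω (fun x => a * φ (t • x)) := by
  have e : (fun x => φ (t • x)) = φ ∘ (Homeomorph.smulOfNeZero t ht.ne' : E ≃ₜ E) := by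
    funext x; simp
  have h1 : HasCompactSupport (fun x => φ (t • x)) := by
    rw [e]; exact h.2.1.comp_homeomorph _
  refine ⟨?_, ?_, ?_⟩
  · exact contDiff_const.mul (h.1.comp (contDiff_const_smul t))
  · exact h1.mul_left (f := fun _ => a)
  · have h2 : tsupport (fun x => a * φ (t • x)) ⊆ tsupport (fun x => φ (t • x)) :=
      closure_mono (Function.support_mul_subset_right (fun _ => a) (fun x => φ (t • x)))
    refine h2.trans ?_
    rw [e, tsupport_comp_eq_preimage]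
    intro x hx
    apply hΩ
    exact h.2.2 (by simpa using hx)

lemma IsPair.dil {Ω : Set E} {u : E → ℝ} {G : E → E} (h : IsPair Ω u G) (a : ℝ) {t : ℝ} (ht : 0 < t)
    (hΩ : ∀ x, t • x ∈ Ω → x ∈ Ω) :
    IsPair Ω (fun x => a * u (t • x)) (fun x => (a * t) • G (t • x)) := by
  obtain ⟨φ, h1, h2, h3⟩ := h.approx
  refine ⟨(memLp_dil h.mu ht).const_mul a, (memLp_dil h.mG ht).const_smul (a * t),
    fun n x => a * φ n (t • x), fun n => (h1 n).dil a ht hΩ, ?_, ?_⟩
  · have e : ∀ n, eLpNorm (fun x => a * φ n (t • x) - a * u (t • x)) 2 volume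
        = ‖a‖ₑ * ((ENNReal.ofReal (t ^ 3)⁻¹) ^ (1 / (2 : ℝ≥0∞)).toReal
          * eLpNorm (fun x => φ n x - u x) 2 volume) := by
      intro n
      rw [← eLpNorm_dil (fun x => φ n x - u x) 2 ht]
      have e2 := eLpNorm_const_smul a (fun x : E => φ n (t • x) - u (t • x)) 2 (volume : Measure E)
      rw [← e2]
      congr 1
      funext x
      simp only [Pi.smul_apply, smul_eq_mul]
      ring
    simp_rw [e]
    have h4 := ENNReal.Tendsto.const_mul (a := ‖a‖ₑ) (ENNReal.Tendsto.const_mul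
      (a := (ENNReal.ofReal (t ^ 3)⁻¹) ^ (1 / (2 : ℝ≥0∞)).toReal) h2
      (Or.inr (ENNReal.rpow_ne_top_of_nonneg ENNReal.toReal_nonneg ENNReal.ofReal_ne_top)))
      (Or.inr enorm_ne_top)
    simpa using h4
  · have e : ∀ n, eLpNorm (fun x => gradient (fun x => a * φ n (t • x)) x
        - (a * t) • G (t • x)) 2 volume
        = ‖a * t‖ₑ * ((ENNReal.ofReal (t ^ 3)⁻¹) ^ (1 / (2 : ℝ≥0∞)).toReal
          * eLpNorm (fun x => gradient (φ n) x - G x) 2 volume) := by
      intro n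
      rw [← eLpNorm_dil (fun x => gradient (φ n) x - G x) 2 ht]
      have e2 := eLpNorm_const_smul (a * t) (fun x : E => gradient (φ n) (t • x) - G (t • x)) 2
        (volume : Measure E)
      rw [← e2]
      congr 1
      funext x
      simp only [Pi.smul_apply]
      rw [grad_dil (h1 n).diff, smul_sub]
    simp_rw [e]
    have h4 := ENNReal.Tendsto.const_mul (a := ‖a * t‖ₑ) (ENNReal.Tendsto.const_mul
      (a := (ENNReal.ofReal (t ^ 3)⁻¹) ^ (1 / (2 : ℝ≥0∞)).toReal) h3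
      (Or.inr (ENNReal.rpow_ne_top_of_nonneg ENNReal.toReal_nonneg ENNReal.ofReal_ne_top)))
      (Or.inr enorm_ne_top)
    simpa using h4

end Pool.Agent.W801.Poho
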