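import Pool.Agent.W801.Poho3

set_option autoImplicit false
open MeasureTheory Filter Topology Set
open scoped ENNReal NNReal

namespace Pool.Agent.W801.Poho

lemma ht665 : ENNReal.HolderTriple (6 / 5) 6 1 := by
  constructor
  rw [ENNReal.inv_div (by simp) (by simp), inv_one, ← one_div, ENNReal.div_add_div_same]
  norm_num
  exact ENNReal.div_self (by norm_num) (by norm_num)

lemma ht663 : ENNReal.HolderTriple 6 6 3 := by
  constructor
  rw [← one_div, ENNReal.div_add_div_same, ← one_div]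
  rw [ENNReal.div_eq_div_iff (by norm_num) (by norm_num) (by norm_num) (by norm_num)]
  norm_num

lemma ht632 : ENNReal.HolderTriple 6 3 2 := by
  constructor
  have h6 : ((6 : ℝ≥0∞))⁻¹ = ENNReal.ofReal (1 / 6) := by
    rw [one_div, ENNReal.ofReal_inv_of_pos (by norm_num)]; norm_num
  have h3 : ((3 : ℝ≥0∞))⁻¹ = ENNReal.ofReal (1 / 3) := by
    rw [one_div, ENNReal.ofReal_inv_of_pos (by norm_num)]; norm_num
  have h2 : ((2 : ℝ≥0∞))⁻¹ = ENNReal.ofReal (1 / 2) := by
    rw [one_div, ENNReal.ofReal_inv_of_pos (by norm_num)]; norm_num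
  rw [h6, h3, h2, ← ENNReal.ofReal_add (by norm_num) (by norm_num)]
  norm_num

section pairing
variable {F : Type*} [NormedAddCommGroup F] [InnerProductSpace ℝ F]

lemma integrable_inner {p q : ℝ≥0∞} [ENNReal.HolderTriple p q 1] {f g : E → F}
    (hf : MemLp f p volume) (hg : MemLp g q volume) :
    Integrable (fun x => (inner ℝ (f x) (g x) : ℝ)) volume := by
  rw [← memLp_one_iff_integrable]
  refine MemLp.of_bilin (p := p) (q := q) (fun x y => (inner ℝ x y : ℝ)) 1 hf hg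
    (hf.1.inner hg.1) (Eventually.of_forall fun x => ?_)
  rw [← NNReal.coe_le_coe]
  push_cast
  rw [one_mul]
  exact norm_inner_le_norm (f x) (g x)

lemma holder_inner {p q : ℝ≥0∞} [ENNReal.HolderTriple p q 1] {f g : E → F}
    (hf : MemLp f p volume) (hg : MemLp g q volume) :
    |∫ x, (inner ℝ (f x) (g x) : ℝ)| ≤ (eLpNorm f p volume).toReal * (eLpNorm g q volume).toReal := by
  have h1 : eLpNorm (fun x => (inner ℝ (f x) (g x) : ℝ)) 1 volume
      ≤ (1 : ℝ≥0) * eLpNorm f p volume * eLpNorm g q volume := by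
    refine eLpNorm_le_eLpNorm_mul_eLpNorm_of_nnnorm hf.1 hg.1 (fun x y => (inner ℝ x y : ℝ)) 1
      (Eventually.of_forall fun x => ?_)
    rw [← NNReal.coe_le_coe]
    push_cast
    rw [one_mul]
    exact norm_inner_le_norm (f x) (g x)
  rw [ENNReal.coe_one, one_mul] at h1
  have h2 : ENNReal.ofReal |∫ x, (inner ℝ (f x) (g x) : ℝ)|
      ≤ eLpNorm f p volume * eLpNorm g q volume := by
    refine le_trans ?_ h1
    rw [eLpNorm_one_eq_lintegral_enorm, ← Real.enorm_eq_ofReal_abs]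
    exact enorm_integral_le_lintegral_enorm _
  have h3 : eLpNorm f p volume * eLpNorm g q volume ≠ ⊤ := ENNReal.mul_ne_top hf.2.ne hg.2.ne
  have h4 := ENNReal.toReal_mono h3 h2
  rwa [ENNReal.toReal_ofReal (abs_nonneg _), ENNReal.toReal_mul] at h4

lemma tendsto_inner {p q : ℝ≥0∞} [ENNReal.HolderTriple p q 1] {f : E → F}
    (hf : MemLp f p volume) {g : ℕ → E → F} {g0 : E → F} (hg : ∀ n, MemLp (g n) q volume)
    (hg0 : MemLp g0 q volume)
    (hlim : Tendsto (fun n => eLpNorm (fun x => g n x - g0 x) q volume) atTop (𝓝 0)) :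
    Tendsto (fun n => ∫ x, (inner ℝ (f x) (g n x) : ℝ)) atTop
      (𝓝 (∫ x, (inner ℝ (f x) (g0 x) : ℝ))) := by
  have h1 : Tendsto (fun n => (eLpNorm f p volume).toReal
      * (eLpNorm (fun x => g n x - g0 x) q volume).toReal) atTop (𝓝 0) := by
    have h2 := (ENNReal.tendsto_toReal ENNReal.zero_ne_top).comp hlim
    have h3 := h2.const_mul (eLpNorm f p volume).toReal
    simpa using h3
  rw [tendsto_iff_norm_sub_tendsto_zero]
  refine squeeze_zero (fun _ => norm_nonneg _) (fun n => ?_) h1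
  rw [← integral_sub (integrable_inner hf (hg n)) (integrable_inner hf hg0)]
  have h4 := holder_inner hf ((hg n).sub hg0)
  have h5 : ∀ x, (inner ℝ (f x) ((g n - g0) x) : ℝ)
      = inner ℝ (f x) (g n x) - inner ℝ (f x) (g0 x) := by
    intro x; rw [Pi.sub_apply, inner_sub_right]
  simp_rw [h5] at h4
  exact h4

end pairing

lemma inner_real (a b : ℝ) : (inner ℝ a b : ℝ) = a * b := by
  simp [mul_comm]

lemma integrable_mul' {p q : ℝ≥0∞} [ENNReal.HolderTriple p q 1] {f g : E → ℝ}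
    (hf : MemLp f p volume) (hg : MemLp g q volume) :
    Integrable (fun x => f x * g x) volume := by
  have := integrable_inner hf hg
  simpa only [inner_real] using this

lemma holder_mul {p q : ℝ≥0∞} [ENNReal.HolderTriple p q 1] {f g : E → ℝ}
    (hf : MemLp f p volume) (hg : MemLp g q volume) :
    |∫ x, f x * g x| ≤ (eLpNorm f p volume).toReal * (eLpNorm g q volume).toReal := by
  have := holder_inner hf hg
  simpa only [inner_real] using this

lemma tendsto_mul' {p q : ℝ≥0∞} [ENNReal.HolderTriple p q 1] {f : E → ℝ}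
    (hf : MemLp f p volume) {g : ℕ → E → ℝ} {g0 : E → ℝ} (hg : ∀ n, MemLp (g n) q volume)
    (hg0 : MemLp g0 q volume)
    (hlim : Tendsto (fun n => eLpNorm (fun x => g n x - g0 x) q volume) atTop (𝓝 0)) :
    Tendsto (fun n => ∫ x, f x * g n x) atTop (𝓝 (∫ x, f x * g0 x)) := by
  have := tendsto_inner hf hg hg0 hlim
  simpa only [inner_real] using this

lemma N2_sq {F : Type*} [NormedAddCommGroup F] {f : E → F} (hf : MemLp f 2 volume) :
    (eLpNorm f 2 volume).toReal ^ 2 = ∫ x, ‖f x‖ ^ 2 := by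
  rw [← ENNReal.toReal_pow, sq_eLpNorm, integral_eq_lintegral_of_nonneg_ae]
  · congr 1
    apply lintegral_congr
    intro x
    rw [ENNReal.ofReal_pow (norm_nonneg _), ofReal_norm]
  · exact Eventually.of_forall fun _ => by positivity
  · exact hf.1.norm.pow 2

/-- integrability of powers between 2 and 6 -/
lemma integrable_pow {u : E → ℝ} (h2 : MemLp u 2 volume) (h6 : MemLp u 6 volume) (r : ℝ)
    (hr2 : 2 ≤ r) (hr6 : r ≤ 6) : Integrable (fun x => ‖u x‖ ^ r) volume := by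
  have i2 : Integrable (fun x => ‖u x‖ ^ (2 : ℝ)) volume := by
    have := (integrable_norm_rpow_iff h2.1 (by norm_num) (by norm_num)).2 h2
    simpa using this
  have i6 : Integrable (fun x => ‖u x‖ ^ (6 : ℝ)) volume := by
    have := (integrable_norm_rpow_iff h6.1 (by norm_num) (by norm_num)).2 h6
    simpa using this
  refine (i2.add i6).mono' (h2.1.norm.aemeasurable.pow_const r).aestronglyMeasurable
    (Eventually.of_forall fun x => ?_)
  rw [Real.norm_of_nonneg (by positivity)]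
  simp only [Pi.add_apply]
  rcases le_total ‖u x‖ 1 with h | h
  · rcases eq_or_lt_of_le (norm_nonneg (u x)) with h0 | h0
    · rw [← h0, Real.zero_rpow (by linarith)]
      positivity
    · have : ‖u x‖ ^ r ≤ ‖u x‖ ^ (2 : ℝ) := Real.rpow_le_rpow_of_exponent_ge h0 h hr2
      have h3 : (0 : ℝ) ≤ ‖u x‖ ^ (6 : ℝ) := by positivity
      linarith
  · have : ‖u x‖ ^ r ≤ ‖u x‖ ^ (6 : ℝ) := Real.rpow_le_rpow_of_exponent_le h hr6
    have h3 : (0 : ℝ) ≤ ‖u x‖ ^ (2 : ℝ) := by positivity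
    linarith

lemma memLp_pow4 {u : E → ℝ} (h2 : MemLp u 2 volume) (h6 : MemLp u 6 volume) :
    MemLp (fun x => u x ^ 4) (6 / 5) volume := by
  have hm : AEStronglyMeasurable (fun x => u x ^ 4) volume := h2.1.pow 4
  have hne : (6 / 5 : ℝ≥0∞) ≠ 0 := by simp
  have hnt : (6 / 5 : ℝ≥0∞) ≠ ⊤ := ENNReal.div_ne_top (by norm_num) (by norm_num)
  rw [← integrable_norm_rpow_iff hm hne hnt]
  have e : (6 / 5 : ℝ≥0∞).toReal = 6 / 5 := by
    rw [ENNReal.toReal_div]; norm_num
  have := integrable_pow h2 h6 (24 / 5) (by norm_num) (by norm_num)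
  refine this.congr (Eventually.of_forall fun x => ?_)
  simp only [e]
  rw [norm_pow, ← Real.rpow_natCast, ← Real.rpow_mul (norm_nonneg _)]
  norm_num

lemma memLp_pow3 {u : E → ℝ} (h6 : MemLp u 6 volume) :
    MemLp (fun x => u x ^ 3) 2 volume := by
  have hm : AEStronglyMeasurable (fun x => u x ^ 3) volume := h6.1.pow 3
  rw [memLp_two_iff_integrable_sq hm]
  have := (integrable_norm_rpow_iff h6.1 (by norm_num) (by norm_num)).2 h6
  refine this.congr (Eventually.of_forall fun x => ?_)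
  simp only [ENNReal.toReal_ofNat]
  rw [Real.norm_eq_abs, show (6 : ℝ) = ((6 : ℕ) : ℝ) by norm_num, Real.rpow_natCast,
    show 6 = 2 * 3 by norm_num, pow_mul, sq_abs]
  ring

/-- the weak equation for test functions -/
def Weak (Ω : Set E) (u : E → ℝ) (G : E → E) : Prop :=
  ∀ ψ : E → ℝ, IsTest Ω ψ →
    (∫ x, (inner ℝ (G x) (gradient ψ x) : ℝ)) + (∫ x, u x ^ 4 * ψ x)
      - (∫ x, u x ^ 3 * (‖x‖⁻¹ * ψ x)) = 0

lemma IsPair.mem6 {Ω : Set E} {u : E → ℝ} {G : E → E} (h : IsPair Ω u G) : MemLp u 6 volume := by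
  obtain ⟨S, hS⟩ := sobolev_pair
  exact ⟨h.mu.1, (hS Ω u G h).trans_lt (ENNReal.mul_lt_top ENNReal.coe_lt_top h.mG.2)⟩

lemma IsPair.memHardy {Ω : Set E} {u : E → ℝ} {G : E → E} (h : IsPair Ω u G) :
    MemLp (fun x => ‖x‖⁻¹ * u x) 2 volume :=
  ⟨(measurable_norm.inv.aestronglyMeasurable).mul h.mu.1,
    h.hardy.trans_lt (ENNReal.mul_lt_top (by norm_num) h.mG.2)⟩

/-- the weak equation for `H^1_0` test functions -/
lemma Weak.pair {Ω : Set E} {u : E → ℝ} {G : E → E} (hw : Weak Ω u G) (h : IsPair Ω u G)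
    {v : E → ℝ} {H : E → E} (hv : IsPair Ω v H) :
    (∫ x, (inner ℝ (G x) (H x) : ℝ)) + (∫ x, u x ^ 4 * v x)
      - (∫ x, u x ^ 3 * (‖x‖⁻¹ * v x)) = 0 := by
  obtain ⟨S, hS⟩ := sobolev_pair
  obtain ⟨φ, h1, h2, h3⟩ := hv.approx
  have hd : ∀ n, IsPair Ω (fun x => φ n x - v x) (fun x => gradient (φ n) x - H x) :=
    fun n => (h1 n).isPair.sub hv
  have a1 : Tendsto (fun n => ∫ x, (inner ℝ (G x) (gradient (φ n) x) : ℝ)) atTop
      (𝓝 (∫ x, (inner ℝ (G x) (H x) : ℝ))) :=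
    tendsto_inner (p := 2) (q := 2) h.mG (fun n => (h1 n).memLp_grad 2) hv.mG h3
  have a2 : Tendsto (fun n => ∫ x, u x ^ 4 * φ n x) atTop (𝓝 (∫ x, u x ^ 4 * v x)) := by
    have := ht665
    refine tendsto_mul' (p := 6 / 5) (q := 6) (memLp_pow4 h.mu h.mem6) (fun n => (h1 n).memLp 6)
      hv.mem6 ?_
    have h4 := ENNReal.Tendsto.const_mul (a := (S : ℝ≥0∞)) h3 (Or.inr ENNReal.coe_ne_top)
    rw [mul_zero] at h4
    exact tendsto_of_tendsto_of_tendsto_of_le_of_le tendsto_const_nhds h4 (fun _ => zero_le)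
      (fun n => hS Ω _ _ (hd n))
  have a3 : Tendsto (fun n => ∫ x, u x ^ 3 * (‖x‖⁻¹ * φ n x)) atTop
      (𝓝 (∫ x, u x ^ 3 * (‖x‖⁻¹ * v x))) := by
    refine tendsto_mul' (p := 2) (q := 2) (memLp_pow3 h.mem6) (fun n => (h1 n).isPair.memHardy)
      hv.memHardy ?_
    have h4 := ENNReal.Tendsto.const_mul (a := (4 : ℝ≥0∞)) h3 (Or.inr (by norm_num))
    rw [mul_zero] at h4
    refine tendsto_of_tendsto_of_tendsto_of_le_of_le tendsto_const_nhds h4 (fun _ => zero_le)
      (fun n => ?_)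
    have h5 := (hd n).hardy
    simp only at h5 ⊢
    simp_rw [← mul_sub]
    exact h5
  have a4 := (a1.add a2).sub a3
  have a5 : (fun n => (∫ x, (inner ℝ (G x) (gradient (φ n) x) : ℝ)) + (∫ x, u x ^ 4 * φ n x)
      - (∫ x, u x ^ 3 * (‖x‖⁻¹ * φ n x))) = fun _ => (0 : ℝ) := by
    funext n
    exact hw _ (h1 n)
  rw [a5] at a4
  exact (tendsto_nhds_unique a4 tendsto_const_nhds)

end Pool.Agent.W801.Poho
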